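import Mathlib

set_option autoImplicit false

open MeasureTheory
open scoped ENNReal

namespace Pool.Agent.H125Z.ONL

/-- bounded geometry: balls of a given radius have a uniformly bounded finite number of points -/
def BddGeom (X : Type) [MetricSpace X] : Prop :=
  ∀ R : ℝ, 0 < R → ∃ N : ℕ, ∀ x : X,
    (Metric.ball x R).Finite ∧ (Metric.ball x R).ncard ≤ N

/-- the operator `T` has propagation at most `r`: every pair of points at distance more than `r`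
lies outside the support of `T` -/
def PropagationLE (𝕜 E : Type) [RCLike 𝕜] [NormedAddCommGroup E] [NormedSpace 𝕜 E]
    (p : ℝ≥0∞) [Fact (1 ≤ p)] {X : Type} [MetricSpace X] [MeasurableSpace X] (ν : Measure X)
    (T : Lp E p ν →L[𝕜] Lp E p ν) (r : ℝ) : Prop :=
  ∀ x y : X, r < dist x y →
    ∃ U V : Set X, IsOpen U ∧ IsOpen V ∧ x ∈ U ∧ y ∈ V ∧
      ∀ g : Lp E p ν, (∀ᵐ z ∂ν, z ∉ U → ⇑g z = 0) → ∀ᵐ z ∂ν, z ∈ V → ⇑(T g) z = 0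

/-- the `p`-operator norm localization property with coefficients in `E` -/
def HasONL (𝕜 E : Type) [RCLike 𝕜] [NormedAddCommGroup E] [NormedSpace 𝕜 E]
    (p : ℝ≥0∞) [Fact (1 ≤ p)] (X : Type) [MetricSpace X] [MeasurableSpace X] : Prop :=
  ∃ c : ℝ, 0 < c ∧ c ≤ 1 ∧ ∃ f : ℕ → ℕ, Monotone f ∧
    ∀ (ν : Measure X) [IsLocallyFiniteMeasure ν], ν ≠ 0 → ∀ r : ℕ,
      ∀ T : Lp E p ν →L[𝕜] Lp E p ν, PropagationLE 𝕜 E p ν T r →
        ∃ ξ : Lp E p ν, ξ ≠ 0 ∧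
          (∃ S : Set X, (∀ a ∈ S, ∀ b ∈ S, dist a b ≤ (f r : ℝ)) ∧
            ∀ᵐ z ∂ν, z ∉ S → ⇑ξ z = 0) ∧
          c * ‖T‖ * ‖ξ‖ ≤ ‖T ξ‖

/-- Yu's property A -/
def PropertyA (X : Type) [MetricSpace X] : Prop :=
  ∀ R : ℝ, 0 < R → ∀ ε : ℝ, 0 < ε →
    ∃ S : ℝ, ∃ A : X → Set (X × ℕ),
      (∀ x, (A x).Finite) ∧ (∀ x, (x, 0) ∈ A x) ∧
      (∀ x, ∀ w ∈ A x, dist w.1 x ≤ S) ∧
      ∀ x y, dist x y < R →
        ((symmDiff (A x) (A y)).ncard : ℝ) < ε * ((A x ∩ A y).ncard : ℝ)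

end Pool.Agent.H125Z.ONL
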