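import Pool.Agent.H125Z.ONL.Core
import Pool.Agent.H125Z.ONL.Defs

set_option autoImplicit false

namespace Pool.Agent.H125Z.ONL

open Finset
open scoped Classical

variable {X : Type} [MetricSpace X]

/-- weighted Folner sets inside every finite subset -/
def WFolner (X : Type) [MetricSpace X] (R : ℕ) (ε S : ℝ) : Prop :=
  ∀ F : Finset X, F.Nonempty → ∀ (m : X → ℝ) (w : X → X → ℝ), (∀ x, 0 < m x) →
    (∀ x y, 0 ≤ w x y) → (∀ x y, w x y = w y x) → (∀ x ∈ F, ∑ y ∈ F, w x y ≤ m x) →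
    (∀ x y, w x y ≠ 0 → dist x y ≤ R) →
    ∃ E : Finset X, E ⊆ F ∧ E.Nonempty ∧ (∀ a ∈ E, ∀ b ∈ E, dist a b ≤ S) ∧
      ∑ x ∈ F, ∑ y ∈ F,
        w x y * |(if x ∈ E then (1:ℝ) else 0) - (if y ∈ E then (1:ℝ) else 0)| ≤
          ε * ∑ x ∈ E, m x

lemma wfolner {q c : ℝ} (hq : 1 < q) (hc : 0 < c) (f : ℕ → ℕ)
    (h : ∀ F : Finset X, F.Nonempty → FinONL q c f F) (R : ℕ) {ε : ℝ} (hε : 0 < ε) :
    ∃ S : ℝ, 0 ≤ S ∧ WFolner X R ε S := by
  obtain ⟨S, hS, hF⟩ := folner hq hc f R hε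
  refine ⟨S, hS, fun F hFne m w hm hw hs hwm hwR => ?_⟩
  obtain ⟨E, hE1, hE2, hE3⟩ := hF F (h F hFne) (fun x => m x) (fun x y => w x y)
    (fun x => hm x) (fun x y => hw x y) (fun x y => hs x y)
    (fun x => by
      rw [Finset.sum_coe_sort F (fun y => w x y)]
      exact hwm x x.2)
    (fun x y hxy => hwR x y hxy)
  refine ⟨E.map (Function.Embedding.subtype _), ?_, ?_, ?_, ?_⟩
  · intro x hx
    obtain ⟨y, _, rfl⟩ := Finset.mem_map.1 hx
    exact y.2
  · simpa using hE1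
  · intro a ha b hb
    obtain ⟨a', ha', rfl⟩ := Finset.mem_map.1 ha
    obtain ⟨b', hb', rfl⟩ := Finset.mem_map.1 hb
    exact hE2 a' ha' b' hb'
  · rw [Finset.sum_map, ← Finset.sum_coe_sort F]
    refine le_trans (le_of_eq ?_) hE3
    refine Finset.sum_congr rfl fun x _ => ?_
    rw [← Finset.sum_coe_sort F]
    refine Finset.sum_congr rfl fun y _ => ?_
    have e : ∀ z : F, ((z : X) ∈ E.map (Function.Embedding.subtype _)) ↔ z ∈ E := by
      intro z
      exact Finset.mem_map' (Function.Embedding.subtype _)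
    simp only [e]

lemma greedy {R : ℕ} {ε S : ℝ} (h : WFolner X R ε S) (m : X → ℝ) (w : X → X → ℝ)
    (hm : ∀ x, 0 < m x) (hw : ∀ x y, 0 ≤ w x y) (hs : ∀ x y, w x y = w y x)
    (hwR : ∀ x y, w x y ≠ 0 → dist x y ≤ R) (F : Finset X) :
    (∀ x ∈ F, ∑ y ∈ F, w x y ≤ m x) →
    ∃ l : X → X, (∀ x ∈ F, l x ∈ F ∧ dist x (l x) ≤ S) ∧
      ∑ x ∈ F, ∑ y ∈ F, w x y * (if l x = l y then 0 else 1) ≤ ε * ∑ x ∈ F, m x := by
  induction F using Finset.strongInduction with
  | H F ih =>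
  intro hwm
  rcases F.eq_empty_or_nonempty with rfl | hF
  · exact ⟨id, by simp, by simp⟩
  obtain ⟨E, hEF, ⟨e0, he0⟩, hEd, hE⟩ := h F hF m w hm hw hs hwm hwR
  have hss : F \ E ⊂ F := Finset.sdiff_ssubset hEF ⟨e0, he0⟩
  obtain ⟨l', hl1, hl2⟩ := ih (F \ E) hss (fun x hx =>
    (Finset.sum_le_sum_of_subset_of_nonneg Finset.sdiff_subset (fun y _ _ => hw x y)).trans
      (hwm x (Finset.mem_sdiff.1 hx).1))
  refine ⟨fun x => if x ∈ E then e0 else l' x, ?_, ?_⟩
  · intro x hx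
    by_cases hxE : x ∈ E
    · simp only [hxE, if_true]
      exact ⟨hEF he0, hEd x hxE e0 he0⟩
    · simp only [hxE, if_false]
      have := hl1 x (Finset.mem_sdiff.2 ⟨hx, hxE⟩)
      exact ⟨(Finset.mem_sdiff.1 this.1).1, this.2⟩
  · have h1 : ∀ x ∈ F, ∀ y ∈ F, w x y *
        (if (if x ∈ E then e0 else l' x) = (if y ∈ E then e0 else l' y) then (0:ℝ) else 1) ≤
        w x y * |(if x ∈ E then (1:ℝ) else 0) - (if y ∈ E then (1:ℝ) else 0)| +
          (if x ∉ E then (if y ∉ E then w x y * (if l' x = l' y then 0 else 1) else 0) else 0) := by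
      intro x _ y _
      have := hw x y
      by_cases hx : x ∈ E <;> by_cases hy : y ∈ E
      · simp [hx, hy]
      · simp only [hx, hy, if_true, if_false, sub_zero, abs_one, not_true, add_zero]
        split_ifs <;> nlinarith
      · simp only [hx, hy, if_true, if_false, zero_sub, abs_neg, abs_one, not_true,
          not_false_iff, add_zero]
        split_ifs <;> nlinarith
      · simp [hx, hy]
    refine (Finset.sum_le_sum fun x hx => Finset.sum_le_sum fun y hy => h1 x hx y hy).trans ?_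
    simp only [Finset.sum_add_distrib]
    have h2 : ∑ x ∈ F, ∑ y ∈ F, (if x ∉ E then
        (if y ∉ E then w x y * (if l' x = l' y then (0:ℝ) else 1) else 0) else 0) =
        ∑ x ∈ F \ E, ∑ y ∈ F \ E, w x y * (if l' x = l' y then 0 else 1) := by
      have e : F \ E = F.filter (fun x => x ∉ E) := by ext; simp
      rw [e, Finset.sum_filter]
      refine Finset.sum_congr rfl fun x _ => ?_
      by_cases hx : x ∈ E
      · simp [hx]
      · simp only [hx, not_false_iff, if_true]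
        rw [Finset.sum_filter]
    rw [h2, ← Finset.sum_sdiff hEF (f := m)]
    linarith

/-- families of probability vectors on `F` with controlled supports -/
def Good (F : Finset X) (S : ℝ) (ξ : X → X → ℝ) : Prop :=
  (∀ x z, 0 ≤ ξ x z) ∧ (∀ x ∈ F, ∑ z ∈ F, ξ x z = 1) ∧
    ∀ x ∈ F, ∀ z ∈ F, ξ x z ≠ 0 → dist x z ≤ S

lemma minimax {R : ℕ} {ε S : ℝ} (hε : 0 < ε) (h : WFolner X R ε S) (F : Finset X) :
    ∃ ξ : X → X → ℝ, Good F S ξ ∧
      ∀ x ∈ F, ∀ y ∈ F, dist x y ≤ R → ∑ z ∈ F, |ξ x z - ξ y z| ≤ 8 * ε := by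
  set C : Set (F × F → ℝ) := {v | ∃ ξ : X → X → ℝ, Good F S ξ ∧
    ∀ e : F × F, dist (e.1 : X) e.2 ≤ R → ∑ z ∈ F, |ξ e.1 z - ξ e.2 z| ≤ v e} with hC
  set D : Set (F × F → ℝ) := {v | ∀ e, v e < 8 * ε} with hD
  by_cases hCD : Disjoint D C
  swap
  · obtain ⟨v, hvD, ξ, hξ, hv⟩ := Set.not_disjoint_iff.1 hCD
    exact ⟨ξ, hξ, fun x hx y hy hxy => (hv (⟨x, hx⟩, ⟨y, hy⟩) hxy).trans (hvD _).le⟩
  exfalso
  have hDconv : Convex ℝ D := by
    have : D = Set.pi Set.univ (fun _ => Set.Iio (8 * ε)) := by ext v; simp [hD]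
    rw [this]
    exact convex_pi fun _ _ => convex_Iio _
  have hDopen : IsOpen D := by
    have : D = Set.pi Set.univ (fun _ => Set.Iio (8 * ε)) := by ext v; simp [hD]
    rw [this]
    exact isOpen_set_pi Set.finite_univ fun _ _ => isOpen_Iio
  have hCconv : Convex ℝ C := by
    rintro v1 ⟨ξ1, ⟨a1, b1, c1⟩, d1⟩ v2 ⟨ξ2, ⟨a2, b2, c2⟩, d2⟩ s t hs ht hst
    refine ⟨fun x z => s * ξ1 x z + t * ξ2 x z, ⟨?_, ?_, ?_⟩, ?_⟩
    · intro x z
      have := a1 x z; have := a2 x z; positivity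
    · intro x hx
      rw [Finset.sum_add_distrib, ← Finset.mul_sum, ← Finset.mul_sum, b1 x hx, b2 x hx]
      linarith
    · intro x hx z hz hne
      by_cases h1 : ξ1 x z = 0
      · refine c2 x hx z hz fun h2 => hne ?_
        simp [h1, h2]
      · exact c1 x hx z hz h1
    · intro e he
      have h1 := mul_le_mul_of_nonneg_left (d1 e he) hs
      have h2 := mul_le_mul_of_nonneg_left (d2 e he) ht
      rw [Finset.mul_sum] at h1 h2
      have h3 : ∑ z ∈ F, |s * ξ1 e.1 z + t * ξ2 e.1 z - (s * ξ1 e.2 z + t * ξ2 e.2 z)| ≤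
          ∑ z ∈ F, s * |ξ1 e.1 z - ξ1 e.2 z| + ∑ z ∈ F, t * |ξ2 e.1 z - ξ2 e.2 z| := by
        rw [← Finset.sum_add_distrib]
        refine Finset.sum_le_sum fun z _ => ?_
        have e1 : s * ξ1 e.1 z + t * ξ2 e.1 z - (s * ξ1 e.2 z + t * ξ2 e.2 z) =
            s * (ξ1 e.1 z - ξ1 e.2 z) + t * (ξ2 e.1 z - ξ2 e.2 z) := by ring
        rw [e1]
        refine (abs_add_le _ _).trans (le_of_eq ?_)
        rw [abs_mul, abs_mul, abs_of_nonneg hs, abs_of_nonneg ht]
      simp only [Pi.add_apply, Pi.smul_apply, smul_eq_mul]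
      linarith
  obtain ⟨φ, u, hφD, hφC⟩ := geometric_hahn_banach_open hDconv hDopen hCconv hCD
  set ω : F × F → ℝ := fun e => φ (fun j => if e = j then 1 else 0) with hω
  have hφ : ∀ v : F × F → ℝ, φ v = ∑ e, v e * ω e := by
    intro v
    have := LinearMap.pi_apply_eq_sum_univ (φ : (F × F → ℝ) →ₗ[ℝ] ℝ) v
    simpa [hω] using this
  have hω0 : ∀ e, 0 ≤ ω e := by
    intro e
    by_contra hneg
    push Not at hneg
    have h0 : (0:ℝ) < u := by
      have := hφD 0 (fun _ => by simp [hε])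
      simpa using this
    have h1 := hφD (fun j => if e = j then u / ω e else 0) (fun j => by
      have : u / ω e < 0 := div_neg_of_pos_of_neg h0 hneg
      show (if e = j then u / ω e else 0) < 8 * ε
      split_ifs <;> linarith)
    rw [hφ] at h1
    simp only [ite_mul, zero_mul, Finset.sum_ite_eq, Finset.mem_univ, if_true] at h1
    rw [div_mul_cancel₀ _ hneg.ne] at h1
    exact lt_irrefl _ h1
  set W : ℝ := ∑ e, ω e with hW
  have hW0 : 0 ≤ W := Finset.sum_nonneg fun e _ => hω0 e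
  have hWu : 6 * ε * W < u := by
    have := hφD (fun _ => 6 * ε) (fun _ => by show 6 * ε < 8 * ε; linarith)
    rw [hφ, ← Finset.mul_sum] at this
    exact this
  set ω' : X → X → ℝ := fun x y =>
    if hxy : x ∈ F ∧ y ∈ F then (if dist x y ≤ R then ω (⟨x, hxy.1⟩, ⟨y, hxy.2⟩) else 0) else 0
    with hω'
  have hω'0 : ∀ x y, 0 ≤ ω' x y := by
    intro x y
    simp only [hω']
    split_ifs
    · exact hω0 _
    · exact le_rfl
    · exact le_rfl
  have hω'R : ∀ x y, ω' x y ≠ 0 → dist x y ≤ R := by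
    intro x y hne
    by_contra hR
    apply hne
    simp [hω', hR]
  have hω'e : ∀ e : F × F, ω' e.1 e.2 = if dist (e.1 : X) e.2 ≤ R then ω e else 0 := by
    intro e
    simp [hω']
  have hsumF : ∀ g : X → X → ℝ, ∑ x ∈ F, ∑ y ∈ F, g x y = ∑ e : F × F, g e.1 e.2 := by
    intro g
    rw [Fintype.sum_prod_type, ← Finset.sum_coe_sort F]
    refine Finset.sum_congr rfl fun x _ => ?_
    rw [← Finset.sum_coe_sort F]
  have hω'W : ∑ x ∈ F, ∑ y ∈ F, ω' x y ≤ W := by
    rw [hsumF]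
    refine Finset.sum_le_sum fun e _ => ?_
    rw [hω'e]
    split_ifs
    · exact le_rfl
    · exact hω0 e
  set θ : ℝ := (u - 6 * ε * W) / (ε * (F.card + 1)) with hθ
  have hcard : (0:ℝ) < F.card + 1 := Nat.cast_add_one_pos _
  have hθ0 : 0 < θ := div_pos (by linarith) (mul_pos hε hcard)
  have hθ1 : ε * (θ * F.card) ≤ u - 6 * ε * W := by
    have e1 : ε * (θ * (F.card + 1)) = u - 6 * ε * W := by
      rw [hθ, mul_left_comm, div_mul_cancel₀ _ (mul_pos hε hcard).ne']
    nlinarith [mul_pos hε hθ0]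
  obtain ⟨l, hl1, hl2⟩ := greedy h (fun x => ∑ y ∈ F, (ω' x y + ω' y x) + θ)
    (fun x y => ω' x y + ω' y x)
    (fun x => by
      have : 0 ≤ ∑ y ∈ F, (ω' x y + ω' y x) :=
        Finset.sum_nonneg fun y _ => add_nonneg (hω'0 x y) (hω'0 y x)
      linarith)
    (fun x y => add_nonneg (hω'0 x y) (hω'0 y x)) (fun x y => add_comm _ _)
    (fun x y hne => by
      by_cases h1 : ω' x y = 0
      · rw [dist_comm]
        refine hω'R y x fun h2 => hne ?_
        simp [h1, h2]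
      · exact hω'R x y h1) F (fun x _ => by linarith)
  have hv : (fun e : F × F => if dist (e.1 : X) e.2 ≤ R then
      2 * (if l e.1 = l e.2 then (0:ℝ) else 1) else 0) ∈ C := by
    refine ⟨fun x z => if l x = z then 1 else 0, ⟨?_, ?_, ?_⟩, ?_⟩
    · intro x z
      show 0 ≤ (if l x = z then (1:ℝ) else 0)
      split_ifs <;> norm_num
    · intro x hx
      simp [(hl1 x hx).1]
    · intro x hx z _ hne
      have : l x = z := by by_contra h'; simp [h'] at hne
      rw [← this]; exact (hl1 x hx).2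
    · intro e he
      simp only [he, if_true]
      by_cases hl : l e.1 = l e.2
      · simp [hl]
      · simp only [hl, if_false, mul_one]
        have h1 : ∑ z ∈ F, |(if l e.1 = z then (1:ℝ) else 0) - (if l e.2 = z then (1:ℝ) else 0)| ≤
            ∑ z ∈ F, ((if l e.1 = z then (1:ℝ) else 0) + (if l e.2 = z then (1:ℝ) else 0)) := by
          refine Finset.sum_le_sum fun z _ => ?_
          split_ifs <;> norm_num
        refine h1.trans ?_
        rw [Finset.sum_add_distrib]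
        simp only [Finset.sum_ite_eq]
        split_ifs <;> norm_num
  have h1 := hφC _ hv
  rw [hφ] at h1
  have h2 : ∑ e : F × F, (if dist (e.1 : X) e.2 ≤ R then
      2 * (if l e.1 = l e.2 then (0:ℝ) else 1) else 0) * ω e =
      2 * ∑ x ∈ F, ∑ y ∈ F, ω' x y * (if l x = l y then 0 else 1) := by
    rw [hsumF, Finset.mul_sum]
    refine Finset.sum_congr rfl fun e _ => ?_
    rw [hω'e]
    split_ifs <;> ring
  have h3 : ∑ x ∈ F, ∑ y ∈ F, (ω' x y + ω' y x) * (if l x = l y then (0:ℝ) else 1) =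
      2 * ∑ x ∈ F, ∑ y ∈ F, ω' x y * (if l x = l y then 0 else 1) := by
    simp only [add_mul, Finset.sum_add_distrib]
    rw [two_mul]
    congr 1
    rw [Finset.sum_comm]
    refine Finset.sum_congr rfl fun x _ => Finset.sum_congr rfl fun y _ => ?_
    simp only [eq_comm]
  have h4 : ∑ x ∈ F, (∑ y ∈ F, (ω' x y + ω' y x) + θ) =
      2 * ∑ x ∈ F, ∑ y ∈ F, ω' x y + θ * F.card := by
    simp only [Finset.sum_add_distrib, Finset.sum_const, nsmul_eq_mul]
    rw [Finset.sum_comm (f := fun x y => ω' y x)]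
    ring
  rw [h2, ← h3] at h1
  rw [h4] at hl2
  have h5 := mul_le_mul_of_nonneg_left hω'W hε.le
  have h6 : 0 ≤ ε * W := mul_nonneg hε.le hW0
  by_cases hW1 : W = 0
  · have hz : ∑ x ∈ F, ∑ y ∈ F, (ω' x y + ω' y x) * (if l x = l y then (0:ℝ) else 1) ≤ 0 := by
      rw [h3]
      have : ∑ x ∈ F, ∑ y ∈ F, ω' x y * (if l x = l y then (0:ℝ) else 1) ≤
          ∑ x ∈ F, ∑ y ∈ F, ω' x y := by
        refine Finset.sum_le_sum fun x _ => Finset.sum_le_sum fun y _ => ?_
        have := hω'0 x y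
        split_ifs <;> linarith
      linarith
    rw [hW1] at hWu
    linarith
  · have hW2 : 0 < ε * W := mul_pos hε (lt_of_le_of_ne hW0 (Ne.symm hW1))
    nlinarith

end Pool.Agent.H125Z.ONL
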