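import Mathlib

set_option autoImplicit false

namespace Pool.Agent.H125Z.ONL

open Finset

lemma psi_nonneg {q : ℝ} (hq : 1 ≤ q) {a b : ℝ} (ha : 0 ≤ a) (hb : 0 ≤ b) :
    ((a + b) / 2) ^ q ≤ (a ^ q + b ^ q) / 2 := by
  have h := (convexOn_rpow hq).2 (Set.mem_Ici.2 ha) (Set.mem_Ici.2 hb)
    (show (0:ℝ) ≤ 1 / 2 by norm_num) (show (0:ℝ) ≤ 1 / 2 by norm_num) (by norm_num)
  simp only [smul_eq_mul] at h
  have e1 : (a + b) / 2 = 1 / 2 * a + 1 / 2 * b := by ring
  rw [e1]; linarith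

lemma psi_one {q : ℝ} (hq : 1 < q) {η : ℝ} (hη : 0 < η) :
    ∃ C : ℝ, 0 ≤ C ∧ ∀ t : ℝ, 0 ≤ t → t ≤ 1 →
      1 - t ^ q ≤ η * (1 + t ^ q) + C * ((1 + t ^ q) / 2 - ((1 + t) / 2) ^ q) := by
  have hq0 : 0 ≤ q := by linarith
  have hc1 : Continuous (fun t : ℝ => t ^ q) := Real.continuous_rpow_const hq0
  set K : Set ℝ := Set.Icc 0 1 ∩ {t | η ≤ 1 - t ^ q} with hK
  have hKc : IsCompact K :=
    isCompact_Icc.inter_right (isClosed_le continuous_const (continuous_const.sub hc1))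
  have hg : Continuous (fun t : ℝ => (1 + t ^ q) / 2 - ((1 + t) / 2) ^ q) := by
    refine ((continuous_const.add hc1).div_const 2).sub ?_
    exact hc1.comp ((continuous_const.add continuous_id).div_const 2)
  obtain ⟨κ, hκ, hκ'⟩ := hKc.exists_forall_le' (a := (0:ℝ)) hg.continuousOn (by
    rintro t ⟨⟨ht0, ht1⟩, ht⟩
    have hne : (1:ℝ) ≠ t := by
      rintro rfl
      simp only [Set.mem_ofPred_eq, Real.one_rpow, sub_self] at ht
      linarith
    have h := (strictConvexOn_rpow hq).2 (Set.mem_Ici.2 (zero_le_one' ℝ)) (Set.mem_Ici.2 ht0) hne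
      (show (0:ℝ) < 1 / 2 by norm_num) (show (0:ℝ) < 1 / 2 by norm_num) (by norm_num)
    simp only [smul_eq_mul, Real.one_rpow] at h
    have e1 : (1 + t) / 2 = 1 / 2 * 1 + 1 / 2 * t := by ring
    rw [e1]; linarith)
  refine ⟨1 / κ, by positivity, fun t ht0 ht1 => ?_⟩
  have htq : 0 ≤ t ^ q := Real.rpow_nonneg ht0 q
  have hpsi : 0 ≤ (1 + t ^ q) / 2 - ((1 + t) / 2) ^ q := by
    have := psi_nonneg hq.le (zero_le_one' ℝ) ht0
    rw [Real.one_rpow] at this
    linarith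
  by_cases h : η ≤ 1 - t ^ q
  · have h1 := hκ' t ⟨⟨ht0, ht1⟩, h⟩
    have h2 : 1 ≤ 1 / κ * ((1 + t ^ q) / 2 - ((1 + t) / 2) ^ q) := by
      rw [one_div, ← div_eq_inv_mul, le_div_iff₀ hκ]; linarith
    have h3 : 0 ≤ η * (1 + t ^ q) := by positivity
    linarith
  · push Not at h
    have h2 : 0 ≤ 1 / κ * ((1 + t ^ q) / 2 - ((1 + t) / 2) ^ q) := by positivity
    nlinarith

lemma psi_le {q : ℝ} (hq : 1 < q) {η : ℝ} (hη : 0 < η) :
    ∃ C : ℝ, 0 ≤ C ∧ ∀ a b : ℝ, 0 ≤ a → 0 ≤ b →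
      |a ^ q - b ^ q| ≤ η * (a ^ q + b ^ q) + C * ((a ^ q + b ^ q) / 2 - ((a + b) / 2) ^ q) := by
  obtain ⟨C, hC, h⟩ := psi_one hq hη
  have hq0 : 0 < q := by linarith
  have key : ∀ a b : ℝ, 0 ≤ b → b ≤ a →
      |a ^ q - b ^ q| ≤ η * (a ^ q + b ^ q) + C * ((a ^ q + b ^ q) / 2 - ((a + b) / 2) ^ q) := by
    intro a b hb hba
    rcases eq_or_lt_of_le (hb.trans hba) with ha | ha
    · have hb0 : b = 0 := le_antisymm (ha ▸ hba) hb
      subst hb0
      subst ha
      simp [Real.zero_rpow hq0.ne']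
    · have ht0 : 0 ≤ b / a := div_nonneg hb ha.le
      have ht1 : b / a ≤ 1 := (div_le_one ha).2 hba
      have h1 := h (b / a) ht0 ht1
      have haq : 0 < a ^ q := Real.rpow_pos_of_pos ha q
      have e1 : b ^ q = a ^ q * (b / a) ^ q := by
        rw [← Real.mul_rpow ha.le ht0]; congr 1; field_simp
      have e2 : ((a + b) / 2) ^ q = a ^ q * ((1 + b / a) / 2) ^ q := by
        rw [← Real.mul_rpow ha.le (by positivity)]; congr 1; field_simp
      have h2 : b ^ q ≤ a ^ q := Real.rpow_le_rpow hb hba hq0.le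
      rw [abs_of_nonneg (by linarith), e2, e1]
      have h3 := mul_le_mul_of_nonneg_left h1 haq.le
      nlinarith
  refine ⟨C, hC, fun a b ha hb => ?_⟩
  rcases le_total b a with hba | hab
  · exact key a b hb hba
  · have := key b a ha hab
    rw [abs_sub_comm, add_comm (b ^ q), add_comm b] at this
    exact this

section markov

variable {ι : Type} [Fintype ι] [DecidableEq ι]

/-- lazy reversible Markov matrix attached to vertex masses `m` and edge weights `w` -/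
noncomputable def mk (m : ι → ℝ) (w : ι → ι → ℝ) : Matrix ι ι ℝ :=
  fun x y => w x y / (2 * m x) + if x = y then 1 - ∑ z, w x z / (2 * m x) else 0

/-- weighted sum of `q`-th powers -/
noncomputable def Phi (q : ℝ) (m u : ι → ℝ) : ℝ := ∑ x, m x * u x ^ q

lemma mk_nonneg {m : ι → ℝ} {w : ι → ι → ℝ} (hm : ∀ x, 0 < m x) (hw : ∀ x y, 0 ≤ w x y)
    (hwm : ∀ x, ∑ y, w x y ≤ m x) (x y : ι) : 0 ≤ mk m w x y := by
  unfold mk
  have h1 : 0 ≤ w x y / (2 * m x) := div_nonneg (hw x y) (by have := hm x; positivity)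
  split_ifs
  · have h2 : ∑ z, w x z / (2 * m x) ≤ 1 := by
      rw [← Finset.sum_div, div_le_one (by have := hm x; positivity)]
      have := hwm x; have := hm x; linarith
    linarith
  · linarith

lemma mk_row (m : ι → ℝ) (w : ι → ι → ℝ) (x : ι) : ∑ y, mk m w x y = 1 := by
  unfold mk
  rw [Finset.sum_add_distrib]
  simp

lemma mk_mulVec (m : ι → ℝ) (w : ι → ι → ℝ) (hm : ∀ x, 0 < m x) (u : ι → ℝ) (x : ι) :
    (mk m w).mulVec u x =
      (1 - ∑ y, w x y / m x) * u x + ∑ y, w x y / m x * ((u x + u y) / 2) := by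
  have hx := (hm x).ne'
  unfold mk
  simp only [Matrix.mulVec, dotProduct, add_mul, Finset.sum_add_distrib, ite_mul, zero_mul,
    Finset.sum_ite_eq, Finset.mem_univ, if_true]
  have e1 : ∑ y, w x y / m x * ((u x + u y) / 2) =
      ∑ y, w x y / (2 * m x) * u x + ∑ y, w x y / (2 * m x) * u y := by
    rw [← Finset.sum_add_distrib]
    refine Finset.sum_congr rfl fun y _ => ?_
    field_simp
  have e2 : ∑ y, w x y / m x = 2 * ∑ y, w x y / (2 * m x) := by
    rw [Finset.mul_sum]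
    refine Finset.sum_congr rfl fun y _ => ?_
    field_simp
  rw [e1, e2, ← Finset.sum_mul]
  ring

lemma step {q : ℝ} (hq : 1 ≤ q) {m : ι → ℝ} {w : ι → ι → ℝ} (hm : ∀ x, 0 < m x)
    (hw : ∀ x y, 0 ≤ w x y) (hs : ∀ x y, w x y = w y x) (hwm : ∀ x, ∑ y, w x y ≤ m x)
    (u : ι → ℝ) (hu : ∀ x, 0 ≤ u x) :
    Phi q m ((mk m w).mulVec u) ≤ Phi q m u -
      ∑ x, ∑ y, w x y * ((u x ^ q + u y ^ q) / 2 - ((u x + u y) / 2) ^ q) := by
  have h1 : ∀ x, m x * ((mk m w).mulVec u x) ^ q ≤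
      m x * u x ^ q - ∑ y, w x y * (u x ^ q - ((u x + u y) / 2) ^ q) := by
    intro x
    have hx := hm x
    have hJ := Real.rpow_arith_mean_le_arith_mean_rpow (Finset.univ : Finset (Option ι))
      (fun o => match o with
        | none => 1 - ∑ y, w x y / m x
        | some y => w x y / m x)
      (fun o => match o with
        | none => u x
        | some y => (u x + u y) / 2)
      (by
        rintro (_ | y) _
        · show 0 ≤ 1 - ∑ y, w x y / m x
          rw [← Finset.sum_div, sub_nonneg, div_le_one hx]; exact hwm x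
        · exact div_nonneg (hw x y) hx.le)
      (by rw [Fintype.sum_option]; simp)
      (by
        rintro (_ | y) _
        · exact hu x
        · show 0 ≤ (u x + u y) / 2
          have := hu x; have := hu y; positivity) hq
    simp only [Fintype.sum_option] at hJ
    rw [mk_mulVec m w hm]
    refine (mul_le_mul_of_nonneg_left hJ hx.le).trans (le_of_eq ?_)
    rw [mul_add, Finset.mul_sum]
    have e1 : ∑ y, m x * (w x y / m x * ((u x + u y) / 2) ^ q) =
        ∑ y, w x y * ((u x + u y) / 2) ^ q := by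
      refine Finset.sum_congr rfl fun y _ => ?_
      field_simp
    have e2 : ∑ y, w x y * (u x ^ q - ((u x + u y) / 2) ^ q) =
        (∑ y, w x y) * u x ^ q - ∑ y, w x y * ((u x + u y) / 2) ^ q := by
      rw [Finset.sum_mul, ← Finset.sum_sub_distrib]
      refine Finset.sum_congr rfl fun y _ => ?_
      ring
    rw [e1, e2, ← Finset.sum_div]
    field_simp
    ring
  have h2 : ∑ x, ∑ y, w x y * u y ^ q = ∑ x, ∑ y, w x y * u x ^ q := by
    rw [Finset.sum_comm]
    refine Finset.sum_congr rfl fun x _ => Finset.sum_congr rfl fun y _ => ?_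
    rw [hs]
  have h3 : ∑ x, ∑ y, w x y * ((u x ^ q + u y ^ q) / 2 - ((u x + u y) / 2) ^ q) =
      ∑ x, ∑ y, w x y * (u x ^ q - ((u x + u y) / 2) ^ q) := by
    have e1 : ∀ x y, w x y * ((u x ^ q + u y ^ q) / 2 - ((u x + u y) / 2) ^ q) =
        w x y * (u x ^ q - ((u x + u y) / 2) ^ q) + (w x y * u y ^ q - w x y * u x ^ q) / 2 := by
      intro x y; ring
    simp only [e1, Finset.sum_add_distrib, ← Finset.sum_div, Finset.sum_sub_distrib, h2, sub_self,
      zero_div, add_zero]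
  rw [h3]
  unfold Phi
  rw [← Finset.sum_sub_distrib]
  exact Finset.sum_le_sum fun x _ => h1 x

lemma pow_nonneg' {P : Matrix ι ι ℝ} (hP : ∀ x y, 0 ≤ P x y) (k : ℕ) (x y : ι) :
    0 ≤ (P ^ k) x y := by
  induction k generalizing x y with
  | zero => rw [pow_zero, Matrix.one_apply]; split_ifs <;> norm_num
  | succ k ih =>
    rw [pow_succ, Matrix.mul_apply]
    exact Finset.sum_nonneg fun z _ => mul_nonneg (ih x z) (hP z y)

lemma pow_row {P : Matrix ι ι ℝ} (hP : ∀ x, ∑ y, P x y = 1) (k : ℕ) (x : ι) :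
    ∑ y, (P ^ k) x y = 1 := by
  induction k generalizing x with
  | zero => simp [Matrix.one_apply]
  | succ k ih =>
    simp only [pow_succ, Matrix.mul_apply]
    rw [Finset.sum_comm]
    simp only [← Finset.mul_sum, hP, mul_one, ih]

lemma pow_prop [PseudoMetricSpace ι] {P : Matrix ι ι ℝ} {R : ℝ}
    (hP : ∀ x y, P x y ≠ 0 → dist x y ≤ R) (k : ℕ) (x y : ι) (h : (P ^ k) x y ≠ 0) :
    dist x y ≤ k * R := by
  induction k generalizing x y with
  | zero =>
    rw [pow_zero, Matrix.one_apply] at h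
    have : x = y := by by_contra hne; simp [hne] at h
    simp [this]
  | succ k ih =>
    rw [pow_succ, Matrix.mul_apply] at h
    obtain ⟨z, _, hz⟩ := Finset.exists_ne_zero_of_sum_ne_zero h
    have h1 := ih x z (left_ne_zero_of_mul hz)
    have h2 := hP z y (right_ne_zero_of_mul hz)
    have := dist_triangle x z y
    push_cast
    linarith

/-- discrete layer cake -/
lemma coarea (m : ι → ℝ) (w : ι → ι → ℝ) (ε : ℝ) (n : ℕ) :
    ∀ φ : ι → ℝ, (∀ x, 0 ≤ φ x) → (univ.filter (fun x => φ x ≠ 0)).card = n → (∃ x, φ x ≠ 0) →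
      ∑ x, ∑ y, w x y * |φ x - φ y| ≤ ε * ∑ x, m x * φ x →
      ∃ E : Finset ι, E.Nonempty ∧ (∀ x ∈ E, φ x ≠ 0) ∧
        ∑ x, ∑ y, w x y * |(if x ∈ E then (1:ℝ) else 0) - (if y ∈ E then (1:ℝ) else 0)| ≤
          ε * ∑ x ∈ E, m x := by
  induction n using Nat.strong_induction_on with
  | _ n ih =>
  intro φ hφ hn hne h
  set E := univ.filter (fun x => φ x ≠ 0) with hE
  have hEne : E.Nonempty := by
    obtain ⟨x, hx⟩ := hne
    exact ⟨x, by simp [hE, hx]⟩
  have hmemE : ∀ x, x ∈ E ↔ φ x ≠ 0 := by intro x; simp [hE]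
  by_cases hgood : ∑ x, ∑ y, w x y *
      |(if x ∈ E then (1:ℝ) else 0) - (if y ∈ E then (1:ℝ) else 0)| ≤ ε * ∑ x ∈ E, m x
  · exact ⟨E, hEne, fun x hx => (hmemE x).1 hx, hgood⟩
  push Not at hgood
  obtain ⟨x0, hx0, hmin⟩ := Finset.exists_min_image E φ hEne
  set t := φ x0 with ht
  have ht0 : 0 < t := lt_of_le_of_ne (hφ x0) (Ne.symm ((hmemE x0).1 hx0))
  set ψ : ι → ℝ := fun x => φ x - t * (if x ∈ E then 1 else 0) with hψ
  have hψ0 : ∀ x, 0 ≤ ψ x := by
    intro x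
    by_cases hx : x ∈ E
    · simp only [hψ, hx, if_true, mul_one]; linarith [hmin x hx]
    · simp only [hψ, hx, if_false, mul_zero, sub_zero]; exact hφ x
  have hψz : ∀ x, x ∉ E → φ x = 0 := by
    intro x hx; by_contra h'; exact hx ((hmemE x).2 h')
  have habs : ∀ x y, |φ x - φ y| = |ψ x - ψ y| +
      t * |(if x ∈ E then (1:ℝ) else 0) - (if y ∈ E then (1:ℝ) else 0)| := by
    intro x y
    by_cases hx : x ∈ E <;> by_cases hy : y ∈ E
    · simp [hψ, hx, hy]
    · have h1 := hmin x hx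
      simp only [hψ, hx, hy, if_true, if_false, hψz y hy, mul_one, mul_zero, sub_zero, abs_one]
      rw [abs_of_nonneg (hφ x), abs_of_nonneg (by linarith)]; ring
    · have h1 := hmin y hy
      simp only [hψ, hx, hy, if_true, if_false, hψz x hx, mul_one, mul_zero, sub_zero, zero_sub,
        abs_neg, abs_one]
      rw [abs_of_nonneg (hφ y), abs_of_nonneg (by linarith)]; ring
    · simp [hψ, hx, hy, hψz x hx, hψz y hy]
  have hsum1 : ∑ x, ∑ y, w x y * |φ x - φ y| = ∑ x, ∑ y, w x y * |ψ x - ψ y| +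
      t * ∑ x, ∑ y, w x y *
        |(if x ∈ E then (1:ℝ) else 0) - (if y ∈ E then (1:ℝ) else 0)| := by
    rw [Finset.mul_sum, ← Finset.sum_add_distrib]
    refine Finset.sum_congr rfl fun x _ => ?_
    rw [Finset.mul_sum, ← Finset.sum_add_distrib]
    refine Finset.sum_congr rfl fun y _ => ?_
    rw [habs]; ring
  have hsum2 : ∑ x, m x * φ x = ∑ x, m x * ψ x + t * ∑ x ∈ E, m x := by
    have e1 : ∑ x ∈ E, m x = ∑ x, m x * (if x ∈ E then (1:ℝ) else 0) := by
      simp [Finset.sum_ite_mem]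
    rw [e1, Finset.mul_sum, ← Finset.sum_add_distrib]
    refine Finset.sum_congr rfl fun x _ => ?_
    simp only [hψ]; ring
  have hlt : ∑ x, ∑ y, w x y * |ψ x - ψ y| < ε * ∑ x, m x * ψ x := by
    have := mul_lt_mul_of_pos_left hgood ht0
    rw [hsum1, hsum2] at h
    nlinarith
  have hψne : ∃ x, ψ x ≠ 0 := by
    by_contra hc
    push Not at hc
    simp [hc] at hlt
  have hsub : univ.filter (fun x => ψ x ≠ 0) ⊂ E := by
    refine Finset.ssubset_iff_subset_ne.2 ⟨?_, ?_⟩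
    · intro x hx
      by_contra hxE
      simp only [Finset.mem_filter, Finset.mem_univ, true_and] at hx
      apply hx
      simp [hψ, hxE, hψz x hxE]
    · intro heq
      have : x0 ∈ univ.filter (fun x => ψ x ≠ 0) := heq ▸ hx0
      simp only [Finset.mem_filter, Finset.mem_univ, true_and] at this
      apply this
      simp [hψ, hx0, ht]
  obtain ⟨E', h1, h2, h3⟩ := ih _ (hn ▸ Finset.card_lt_card hsub) ψ hψ0 rfl hψne hlt.le
  refine ⟨E', h1, fun x hx => (hmemE x).1 (hsub.1 ?_), h3⟩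
  simp [h2 x hx]

end markov

/-- finite dimensional form of norm localisation, for stochastic matrices -/
def FinONL (q c : ℝ) (f : ℕ → ℕ) (ι : Type) [Fintype ι] [PseudoMetricSpace ι] : Prop :=
  ∀ (m : ι → ℝ), (∀ x, 0 < m x) → ∀ (r : ℕ) (Q : Matrix ι ι ℝ), (∀ x y, 0 ≤ Q x y) →
    (∀ x, ∑ y, Q x y = 1) → (∀ x y, Q x y ≠ 0 → dist x y ≤ r) →
    ∃ u : ι → ℝ, (∀ x, 0 ≤ u x) ∧ (∃ x, u x ≠ 0) ∧
      (∀ a b, u a ≠ 0 → u b ≠ 0 → dist a b ≤ f r) ∧
      c ^ q * Phi q m u ≤ Phi q m (Q.mulVec u)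

lemma Phi_nonneg {ι : Type} [Fintype ι] (q : ℝ) {m u : ι → ℝ} (hm : ∀ x, 0 < m x)
    (hu : ∀ x, 0 ≤ u x) : 0 ≤ Phi q m u :=
  Finset.sum_nonneg fun x _ => mul_nonneg (hm x).le (Real.rpow_nonneg (hu x) q)

theorem folner {q c : ℝ} (hq : 1 < q) (hc : 0 < c) (f : ℕ → ℕ) (R : ℕ) {ε : ℝ} (hε : 0 < ε) :
    ∃ S : ℝ, 0 ≤ S ∧ ∀ (ι : Type) [Fintype ι] [DecidableEq ι] [PseudoMetricSpace ι],
      FinONL q c f ι → ∀ (m : ι → ℝ) (w : ι → ι → ℝ), (∀ x, 0 < m x) → (∀ x y, 0 ≤ w x y) →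
        (∀ x y, w x y = w y x) → (∀ x, ∑ y, w x y ≤ m x) → (∀ x y, w x y ≠ 0 → dist x y ≤ R) →
        ∃ E : Finset ι, E.Nonempty ∧ (∀ a ∈ E, ∀ b ∈ E, dist a b ≤ S) ∧
          ∑ x, ∑ y, w x y * |(if x ∈ E then (1:ℝ) else 0) - (if y ∈ E then (1:ℝ) else 0)| ≤
            ε * ∑ x ∈ E, m x := by
  obtain ⟨C, hC, hpsi⟩ := psi_le hq (show 0 < ε / 4 by positivity)
  set δ : ℝ := min (1 / 2) (ε / (2 * (C + 1))) with hδ
  have hδ0 : 0 < δ := lt_min (by norm_num) (by positivity)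
  have hδ1 : δ ≤ 1 / 2 := min_le_left _ _
  have hδC : C * δ ≤ ε / 2 := by
    have h1 : δ ≤ ε / (2 * (C + 1)) := min_le_right _ _
    rw [le_div_iff₀ (by positivity)] at h1
    nlinarith
  obtain ⟨k, hk⟩ := exists_pow_lt_of_lt_one (Real.rpow_pos_of_pos hc q)
    (show 1 - δ < 1 by linarith)
  refine ⟨f (k * R) + 2 * (k * R), by positivity, ?_⟩
  intro ι _ _ _ hONL m w hm hw hs hwm hwR
  set P := mk m w with hP
  have hP0 : ∀ x y, 0 ≤ P x y := mk_nonneg hm hw hwm
  have hP1 : ∀ x, ∑ y, P x y = 1 := mk_row m w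
  have hPR : ∀ x y, P x y ≠ 0 → dist x y ≤ R := by
    intro x y h
    by_cases hxy : x = y
    · simp [hxy]
    · apply hwR
      intro h0
      apply h
      simp [hP, mk, hxy, h0]
  obtain ⟨u, hu0, ⟨x1, hx1⟩, hud, hu⟩ := hONL m hm (k * R) (P ^ k) (pow_nonneg' hP0 k)
    (pow_row hP1 k) (by
      intro x y h
      have := pow_prop hPR k x y h
      push_cast; exact this)
  have hv0 : ∀ j x, 0 ≤ (P ^ j).mulVec u x := by
    intro j x
    exact Finset.sum_nonneg fun y _ => mul_nonneg (pow_nonneg' hP0 j x y) (hu0 y)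
  have hPhiu : 0 < Phi q m u := by
    refine Finset.sum_pos' (fun x _ => mul_nonneg (hm x).le (Real.rpow_nonneg (hu0 x) q))
      ⟨x1, Finset.mem_univ _, mul_pos (hm x1) (Real.rpow_pos_of_pos
        (lt_of_le_of_ne (hu0 x1) (Ne.symm hx1)) q)⟩
  have hsucc : ∀ j, (P ^ (j + 1)).mulVec u = P.mulVec ((P ^ j).mulVec u) := by
    intro j; rw [pow_succ', Matrix.mulVec_mulVec]
  have hdef : ∀ v : ι → ℝ, (∀ x, 0 ≤ v x) →
      0 ≤ ∑ x, ∑ y, w x y * ((v x ^ q + v y ^ q) / 2 - ((v x + v y) / 2) ^ q) := by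
    intro v hv
    refine Finset.sum_nonneg fun x _ => Finset.sum_nonneg fun y _ => mul_nonneg (hw x y) ?_
    have := psi_nonneg hq.le (hv x) (hv y)
    linarith
  have hex : ∃ j < k, 0 < Phi q m ((P ^ j).mulVec u) ∧
      (1 - δ) * Phi q m ((P ^ j).mulVec u) ≤ Phi q m ((P ^ (j + 1)).mulVec u) := by
    by_contra hcon
    push Not at hcon
    have hall : ∀ j ≤ k, Phi q m ((P ^ j).mulVec u) ≤ (1 - δ) ^ j * Phi q m u := by
      intro j hj
      induction j with
      | zero => simp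
      | succ j ih =>
        have ih' := ih (by omega)
        have h1 : Phi q m ((P ^ (j + 1)).mulVec u) ≤ (1 - δ) * Phi q m ((P ^ j).mulVec u) := by
          rcases eq_or_lt_of_le (Phi_nonneg q hm (hv0 j)) with h0 | h0
          · have h2 := step hq.le hm hw hs hwm _ (hv0 j)
            have h3 := hdef _ (hv0 j)
            rw [hsucc, ← h0]
            rw [← h0] at h2
            linarith
          · exact (hcon j (by omega) h0).le
        calc _ ≤ (1 - δ) * Phi q m ((P ^ j).mulVec u) := h1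
          _ ≤ (1 - δ) * ((1 - δ) ^ j * Phi q m u) :=
              mul_le_mul_of_nonneg_left ih' (by linarith)
          _ = _ := by ring
    have h1 := hall k le_rfl
    have h2 := mul_lt_mul_of_pos_right hk hPhiu
    linarith
  obtain ⟨j, hjk, hj0, hj⟩ := hex
  set v := (P ^ j).mulVec u with hv
  have hvn : ∀ x, 0 ≤ v x := hv0 j
  have h1 := step hq.le hm hw hs hwm v hvn
  rw [hsucc] at hj
  have h2 : ∑ x, ∑ y, w x y * ((v x ^ q + v y ^ q) / 2 - ((v x + v y) / 2) ^ q) ≤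
      δ * Phi q m v := by linarith
  have h3 : ∑ x, ∑ y, w x y * v x ^ q ≤ Phi q m v := by
    refine Finset.sum_le_sum fun x _ => ?_
    rw [← Finset.sum_mul]
    exact mul_le_mul_of_nonneg_right (hwm x) (Real.rpow_nonneg (hvn x) q)
  have h4 : ∑ x, ∑ y, w x y * v y ^ q = ∑ x, ∑ y, w x y * v x ^ q := by
    rw [Finset.sum_comm]
    refine Finset.sum_congr rfl fun x _ => Finset.sum_congr rfl fun y _ => ?_
    rw [hs]
  have h5 : ∑ x, ∑ y, w x y * |v x ^ q - v y ^ q| ≤ ε * ∑ x, m x * v x ^ q := by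
    have h6 : ∑ x, ∑ y, w x y * |v x ^ q - v y ^ q| ≤
        ∑ x, ∑ y, (ε / 4 * (w x y * v x ^ q) + ε / 4 * (w x y * v y ^ q) +
          C * (w x y * ((v x ^ q + v y ^ q) / 2 - ((v x + v y) / 2) ^ q))) := by
      refine Finset.sum_le_sum fun x _ => Finset.sum_le_sum fun y _ => ?_
      have := mul_le_mul_of_nonneg_left (hpsi (v x) (v y) (hvn x) (hvn y)) (hw x y)
      nlinarith
    simp only [Finset.sum_add_distrib, ← Finset.mul_sum] at h6
    have h7 : ∑ x, m x * v x ^ q = Phi q m v := rfl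
    rw [h7]
    have h8 := mul_le_mul_of_nonneg_left h2 hC
    have h9 := mul_le_mul_of_nonneg_right hδC hj0.le
    have h10 := mul_le_mul_of_nonneg_left h3 (show 0 ≤ ε / 4 by positivity)
    rw [h4] at h6
    nlinarith
  have hne : ∃ x, v x ^ q ≠ 0 := by
    by_contra hcon
    push Not at hcon
    simp [Phi, hcon] at hj0
  obtain ⟨E, hE1, hE2, hE3⟩ := coarea m w ε _ (fun x => v x ^ q)
    (fun x => Real.rpow_nonneg (hvn x) q) rfl hne h5
  refine ⟨E, hE1, ?_, hE3⟩
  have hsupp : ∀ a ∈ E, ∃ a', u a' ≠ 0 ∧ dist a a' ≤ k * R := by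
    intro a ha
    have hva : v a ≠ 0 := by
      intro h0
      apply hE2 a ha
      simp only [h0]
      exact Real.zero_rpow (by linarith)
    obtain ⟨z, _, hz⟩ := Finset.exists_ne_zero_of_sum_ne_zero hva
    refine ⟨z, right_ne_zero_of_mul hz, (pow_prop hPR j a z (left_ne_zero_of_mul hz)).trans ?_⟩
    have : (j:ℝ) ≤ k := by exact_mod_cast hjk.le
    exact mul_le_mul_of_nonneg_right this (by positivity)
  intro a ha b hb
  obtain ⟨a', ha1, ha2⟩ := hsupp a ha
  obtain ⟨b', hb1, hb2⟩ := hsupp b hb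
  have h6 := hud a' b' ha1 hb1
  have h7 := dist_triangle4 a a' b' b
  rw [dist_comm b' b] at h7
  linarith

end Pool.Agent.H125Z.ONL
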