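import Mathlib

set_option autoImplicit false

open MeasureTheory
open scoped ENNReal

namespace Pool.Agent.H125Z.ONL2

/-- bounded geometry: balls of a given radius have a uniformly bounded finite number of points -/
def BddGeom (X : Type) [MetricSpace X] : Prop :=
  ∀ R : ℝ, 0 < R → ∃ N : ℕ, ∀ x : X,
    (Metric.ball x R).Finite ∧ (Metric.ball x R).ncard ≤ N

/-- the class `g` vanishes almost everywhere on the set `V` -/
def VanishesOn {X E : Type} [MeasurableSpace X] [NormedAddCommGroup E] {p : ℝ≥0∞}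
    {ν : Measure X} (g : Lp E p ν) (V : Set X) : Prop :=
  ∀ᵐ z ∂ν, z ∈ V → ⇑g z = 0

/-- the self-map `T` of `L^p` has propagation at most `r`: every pair of points at distance more
than `r` lies outside the support of `T` -/
def PropagationLE {X E : Type} [MetricSpace X] [MeasurableSpace X] [NormedAddCommGroup E]
    {p : ℝ≥0∞} {ν : Measure X} (T : Lp E p ν → Lp E p ν) (r : ℝ) : Prop :=
  ∀ x y : X, r < dist x y →
    ∃ U V : Set X, IsOpen U ∧ IsOpen V ∧ x ∈ U ∧ y ∈ V ∧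
      ∀ g : Lp E p ν, VanishesOn g Uᶜ → VanishesOn (T g) V

/-- the map `T` stretches the vector `v` by a factor at least `a` -/
def Stretches {V : Type} [Norm V] (T : V → V) (a : ℝ) (v : V) : Prop := a * ‖v‖ ≤ ‖T v‖

/-- some nonzero vector supported in a set of diameter at most `D` is stretched by `T` by a factor
at least `a` -/
def Localizes {X E : Type} [MetricSpace X] [MeasurableSpace X] [NormedAddCommGroup E]
    {p : ℝ≥0∞} {ν : Measure X} (T : Lp E p ν → Lp E p ν) (a D : ℝ) : Prop :=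
  ∃ ξ : Lp E p ν, ξ ≠ 0 ∧
    (∃ S : Set X, (∀ x ∈ S, ∀ y ∈ S, dist x y ≤ D) ∧ VanishesOn ξ Sᶜ) ∧ Stretches T a ξ

/-- bounded operators on a normed space -/
abbrev Op (𝕜 V : Type) [RCLike 𝕜] [NormedAddCommGroup V] [NormedSpace 𝕜 V] : Type := V →L[𝕜] V

/-- operator norm -/
noncomputable def opNorm {𝕜 V : Type} [RCLike 𝕜] [NormedAddCommGroup V] [NormedSpace 𝕜 V]
    (T : Op 𝕜 V) : ℝ := ‖T‖

/-- underlying map of an operator -/
def opFun {𝕜 V : Type} [RCLike 𝕜] [NormedAddCommGroup V] [NormedSpace 𝕜 V]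
    (T : Op 𝕜 V) : V → V := fun v => T v

/-- the `p`-operator norm localization property with coefficients in `E` -/
def HasONL (𝕜 E : Type) [RCLike 𝕜] [NormedAddCommGroup E] [NormedSpace 𝕜 E]
    (p : ℝ≥0∞) [Fact (1 ≤ p)] (X : Type) [MetricSpace X] [MeasurableSpace X] : Prop :=
  ∃ c : ℝ, 0 < c ∧ c ≤ 1 ∧ ∃ f : ℕ → ℕ, Monotone f ∧
    ∀ (ν : Measure X) [IsLocallyFiniteMeasure ν], ν ≠ 0 → ∀ r : ℕ,
      ∀ T : Op 𝕜 (Lp E p ν), PropagationLE (opFun T) r →
        Localizes (opFun T) (c * opNorm T) (f r)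

/-- Yu's property A -/
def PropertyA (X : Type) [MetricSpace X] : Prop :=
  ∀ R : ℝ, 0 < R → ∀ ε : ℝ, 0 < ε →
    ∃ S : ℝ, ∃ A : X → Set (X × ℕ),
      (∀ x, (A x).Finite) ∧ (∀ x, (x, 0) ∈ A x) ∧
      (∀ x, ∀ w ∈ A x, dist w.1 x ≤ S) ∧
      ∀ x y, dist x y < R →
        ((symmDiff (A x) (A y)).ncard : ℝ) < ε * ((A x ∩ A y).ncard : ℝ)

end Pool.Agent.H125Z.ONL2
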