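import Pool.Agent.H125Z.ONL.Oper
import Pool.Agent.Helper799.Graph

set_option autoImplicit false

namespace Pool.Agent.H125Z.ONL

open Finset MeasureTheory Filter Topology
open scoped Classical ENNReal

theorem hasONL_one (𝕜 E : Type) [RCLike 𝕜] [NormedAddCommGroup E] [NormedSpace 𝕜 E]
    [Nontrivial E] {X : Type} [MetricSpace X] [MeasurableSpace X] [BorelSpace X]
    (hX : BddGeom X) : HasONL 𝕜 E 1 X := by
  have := hX.countable
  refine ⟨1 / 2, by norm_num, by norm_num, fun _ => 0, monotone_const, ?_⟩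
  intro ν _ hν r T _
  have hfin : ∀ x : X, ν {x} ≠ ⊤ := fun x => (isCompact_singleton.measure_lt_top).ne
  let δ : X → E → Lp E 1 ν := fun x v => indicatorConstLp 1 (measurableSet_singleton x) (hfin x) v
  have hδn : ∀ x v, ‖δ x v‖ = ‖v‖ * (ν {x}).toReal := by
    intro x v
    simp only [δ]
    rw [norm_indicatorConstLp one_ne_zero ENNReal.one_ne_top]
    simp [Measure.real]
  by_contra hcon
  have h1 : ∀ x v, δ x v ≠ 0 → ‖T (δ x v)‖ < 1 / 2 * ‖T‖ * ‖δ x v‖ := by
    intro x v hne
    by_contra hle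
    push Not at hle
    refine hcon ⟨δ x v, hne, ⟨{x}, ?_, ?_⟩, hle⟩
    · rintro a rfl b rfl; simp
    · filter_upwards [indicatorConstLp_coeFn (p := 1) (hs := measurableSet_singleton x)
        (hμs := hfin x) (c := v)] with z hz hzx
      simp only [δ]
      rw [hz, Set.indicator_of_notMem hzx]
  have h2 : ∀ x v, ‖T (δ x v)‖ ≤ 1 / 2 * ‖T‖ * (‖v‖ * (ν {x}).toReal) := by
    intro x v
    rw [← hδn]
    by_cases h0 : δ x v = 0
    · simp [h0]
    · exact (h1 x v h0).le
  have hT : 0 < ‖T‖ := by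
    obtain ⟨x0, hx0⟩ : ∃ x0, ν {x0} ≠ 0 := by
      by_contra h0
      push Not at h0
      apply hν
      rw [← Measure.measure_univ_eq_zero, ← Set.iUnion_of_singleton]
      exact measure_iUnion_null h0
    obtain ⟨v, hv⟩ := exists_ne (0 : E)
    have h3 : 0 < ‖δ x0 v‖ := by
      rw [hδn]
      exact mul_pos (norm_pos_iff.2 hv) (ENNReal.toReal_pos hx0 (hfin x0))
    have h4 := h1 x0 v (norm_pos_iff.1 h3)
    have h5 := norm_nonneg (T (δ x0 v))
    by_contra h6
    have h7 : ‖T‖ = 0 := le_antisymm (not_lt.1 h6) (norm_nonneg _)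
    rw [h7] at h4
    linarith
  have h3 : ∀ g : Lp E 1 ν, ‖T g‖ ≤ 1 / 2 * ‖T‖ * ‖g‖ := by
    intro g
    let ρ : Finset X → Lp E 1 ν := fun F =>
      ((Lp.memLp g).indicator F.measurableSet).toLp ((F : Set X).indicator g)
    have hρ : ∀ F : Finset X, ρ F =ᵐ[ν] (F : Set X).indicator g := fun F => MemLp.coeFn_toLp _
    have htsum : ∑' x, ‖g x‖ₑ * ν {x} = eLpNorm g 1 ν := by
      rw [eLpNorm_one_eq_lintegral_enorm, lintegral_countable']
    have hne : ∑' x, ‖g x‖ₑ * ν {x} ≠ ⊤ := by rw [htsum]; exact Lp.eLpNorm_ne_top g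
    have h4 : ∀ F : Finset X, ‖T (ρ F)‖ ≤ 1 / 2 * ‖T‖ * ∑ x ∈ F, ‖g x‖ * (ν {x}).toReal := by
      intro F
      induction F using Finset.induction_on with
      | empty =>
        have : ρ ∅ = 0 := by
          refine Lp.ext ?_
          filter_upwards [hρ ∅, Lp.coeFn_zero E 1 ν] with z h5 h6
          rw [h5, h6]; simp
        simp [this]
      | insert a F ha ih =>
        have : ρ (insert a F) = δ a (g a) + ρ F := by
          refine Lp.ext ?_
          filter_upwards [hρ (insert a F), hρ F, Lp.coeFn_add (δ a (g a)) (ρ F),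
            indicatorConstLp_coeFn (p := 1) (hs := measurableSet_singleton a)
              (hμs := hfin a) (c := g a)] with z h5 h6 h7 h8
          rw [h5, h7, Pi.add_apply, h6]
          simp only [δ]
          rw [h8]
          by_cases hz : z = a
          · subst hz; simp [ha]
          · by_cases hzF : z ∈ F <;> simp [hz, hzF]
        rw [this, map_add, Finset.sum_insert ha, mul_add]
        exact (norm_add_le _ _).trans (add_le_add (h2 a (g a)) ih)
    have h5 : ∀ F : Finset X, ∑ x ∈ F, ‖g x‖ * (ν {x}).toReal ≤ ‖g‖ := by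
      intro F
      rw [Lp.norm_def, ← htsum]
      refine le_trans (le_of_eq ?_) (ENNReal.toReal_mono hne (ENNReal.sum_le_tsum F))
      rw [ENNReal.toReal_sum fun x _ => ENNReal.mul_ne_top enorm_ne_top (hfin x)]
      simp
    have h6 : Tendsto ρ atTop (𝓝 g) := by
      rw [tendsto_iff_norm_sub_tendsto_zero]
      have h7 := (ENNReal.tendsto_toReal ENNReal.zero_ne_top).comp
        (ENNReal.tendsto_tsum_compl_atTop_zero hne)
      rw [ENNReal.toReal_zero] at h7
      refine h7.congr fun F => ?_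
      simp only [Function.comp]
      rw [Lp.norm_def]
      congr 1
      have h8 : (⇑(ρ F - g) : X → E) =ᵐ[ν] fun z => (F : Set X).indicator g z - g z := by
        filter_upwards [Lp.coeFn_sub (ρ F) g, hρ F] with z h9 h10
        rw [h9, Pi.sub_apply, h10]
      rw [eLpNorm_congr_ae h8, eLpNorm_one_eq_lintegral_enorm, lintegral_countable']
      refine (tsum_subtype {x | x ∉ F} (fun x => ‖g x‖ₑ * ν {x})).trans (tsum_congr fun z => ?_)
      by_cases hz : z ∈ F <;> simp [hz]
    have h7 : Tendsto (fun F => ‖T (ρ F)‖) atTop (𝓝 ‖T g‖) :=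
      ((T.continuous.tendsto g).comp h6).norm
    refine le_of_tendsto' h7 fun F => (h4 F).trans ?_
    exact mul_le_mul_of_nonneg_left (h5 F) (by positivity)
  have h4 := T.opNorm_le_bound (by positivity) h3
  linarith

lemma exists_metric {V : Type} (G : SimpleGraph V) (hG : G.Connected) (D : ℕ)
    (hD : ∀ x, ∃ s : Finset V, s.card ≤ D ∧ ∀ y, G.Adj x y → y ∈ s) :
    ∃ _ : MetricSpace V, BddGeom V ∧ ∀ x y, G.Adj x y → dist x y ≤ 1 := by
  have hball : ∀ (k : ℕ) (x : V), ∃ s : Finset V, s.card ≤ (D + 1) ^ k ∧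
      ∀ y (p : G.Walk x y), p.length ≤ k → y ∈ s := by
    intro k
    induction k with
    | zero =>
      intro x
      refine ⟨{x}, by simp, fun y p hp => ?_⟩
      simp [(SimpleGraph.Walk.eq_of_length_eq_zero (Nat.le_zero.1 hp)).symm]
    | succ k ih =>
      intro x
      choose t ht1 ht2 using ih
      obtain ⟨s, hs1, hs2⟩ := hD x
      refine ⟨insert x (s.biUnion t), ?_, fun y p hp => ?_⟩
      · have h1 : (s.biUnion t).card ≤ s.card * (D + 1) ^ k :=
          Finset.card_biUnion_le_card_mul _ _ _ fun z _ => ht1 z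
        have h2 := Finset.card_insert_le x (s.biUnion t)
        have h3 : 1 ≤ (D + 1) ^ k := Nat.one_le_pow _ _ (by omega)
        have h4 : s.card * (D + 1) ^ k ≤ D * (D + 1) ^ k := Nat.mul_le_mul_right _ hs1
        rw [pow_succ]
        nlinarith
      · cases p with
        | nil => simp
        | cons h p' =>
          rw [SimpleGraph.Walk.length_cons] at hp
          exact Finset.mem_insert_of_mem (Finset.mem_biUnion.2
            ⟨_, hs2 _ h, ht2 _ y p' (by omega)⟩)
  let M : MetricSpace V :=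
    { dist := fun x y => (G.dist x y : ℝ)
      dist_self := fun x => by simp
      dist_comm := fun x y => by rw [SimpleGraph.dist_comm]
      dist_triangle := fun x y z => by exact_mod_cast hG.dist_triangle
      eq_of_dist_eq_zero := fun {x y} h => by
        have : G.dist x y = 0 := by exact_mod_cast h
        exact (hG.dist_eq_zero_iff).1 this }
  refine ⟨M, fun R _ => ?_, fun x y h => ?_⟩
  · refine ⟨(D + 1) ^ ⌈R⌉₊, fun x => ?_⟩
    obtain ⟨s, hs1, hs2⟩ := hball ⌈R⌉₊ x
    have hsub : Metric.ball x R ⊆ (s : Set V) := by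
      intro y hy
      have h1 : (G.dist y x : ℝ) < R := hy
      obtain ⟨p, hp⟩ := hG.exists_walk_length_eq_dist x y
      refine hs2 y p ?_
      rw [hp, SimpleGraph.dist_comm]
      exact_mod_cast h1.le.trans (Nat.le_ceil R)
    refine ⟨s.finite_toSet.subset hsub, ?_⟩
    exact (Set.ncard_le_ncard hsub s.finite_toSet).trans (by simpa using hs1)
  · show (G.dist x y : ℝ) ≤ 1
    exact_mod_cast (SimpleGraph.dist_le h.toWalk).trans (by simp)

lemma not_propertyA {X : Type} [MetricSpace X] (hX : BddGeom X)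
    (R : ∀ n : ℕ, Fin (n + 1) → Fin (n + 1) → Prop) (e : ∀ n : ℕ, Fin (n + 1) → X)
    (he : ∀ n, Function.Injective (e n)) (hR : ∀ n i j, R n i j → dist (e n i) (e n j) ≤ 1)
    (hdeg : ∀ n x (A : Finset (Fin (n + 1))), (∀ y ∈ A, R n x y) → A.card ≤ 48)
    (hexp : ∀ n (S : Finset (Fin (n + 1))), 2 * S.card ≤ n + 1 →
      ∃ T : Finset (Fin (n + 1)), Disjoint S T ∧ (∀ y ∈ T, ∃ x ∈ S, R n x y) ∧
        (1 / 2 : ℝ) * S.card ≤ T.card) : ¬ PropertyA X := by
  intro hA
  obtain ⟨S, A, hA1, hA2, hA3, hA4⟩ := hA 2 two_pos (1 / 100) (by norm_num)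
  have hS : 0 ≤ S := by simpa using hA3 (e 0 0) _ (hA2 (e 0 0))
  obtain ⟨N, hN⟩ := hX (S + 1) (by linarith)
  set n := 2 * N with hn
  let a : Fin (n + 1) → Finset (X × ℕ) := fun i => (hA1 (e n i)).toFinset
  have ha : ∀ i w, w ∈ a i ↔ w ∈ A (e n i) := fun i w => Set.Finite.mem_toFinset _
  let W : Finset (X × ℕ) := univ.biUnion a
  let B : X × ℕ → Finset (Fin (n + 1)) := fun w => univ.filter (fun i => w ∈ a i)
  have hB : ∀ w, 2 * (B w).card ≤ n + 1 := by
    intro w
    have h1 : (B w).card ≤ (hN w.1).1.toFinset.card := by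
      refine Finset.card_le_card_of_injOn (e n) ?_ (he n).injOn
      intro i hi
      simp only [B, Finset.coe_filter, Finset.mem_univ, true_and, Set.mem_ofPred_eq] at hi
      have := hA3 _ w ((ha i w).1 hi)
      simp only [Set.Finite.coe_toFinset, Metric.mem_ball]
      rw [dist_comm]; linarith
    have h2 := (hN w.1).2
    rw [Set.ncard_eq_toFinset_card _ (hN w.1).1] at h2
    omega
  have h1 : ∀ w, (1 / 2 : ℝ) * (B w).card ≤
      ∑ i, ∑ j, if R n i j ∧ w ∈ a i ∧ w ∉ a j then (1:ℝ) else 0 := by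
    intro w
    obtain ⟨T, hT1, hT2, hT3⟩ := hexp n (B w) (hB w)
    refine hT3.trans ?_
    rw [Finset.sum_comm]
    calc (T.card : ℝ) = ∑ j ∈ T, (1:ℝ) := by simp
      _ ≤ ∑ j ∈ T, ∑ i, if R n i j ∧ w ∈ a i ∧ w ∉ a j then (1:ℝ) else 0 := by
        refine Finset.sum_le_sum fun j hj => ?_
        obtain ⟨i, hi, hij⟩ := hT2 j hj
        have h2 : w ∈ a i := by simpa [B] using hi
        have h3 : w ∉ a j := by
          intro h
          exact Finset.disjoint_left.1 hT1 (by simpa [B] using h) hj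
        refine le_trans (by simp [hij, h2, h3]) (Finset.single_le_sum
          (f := fun i => if R n i j ∧ w ∈ a i ∧ w ∉ a j then (1:ℝ) else 0)
          (fun i _ => by positivity) (Finset.mem_univ i))
      _ ≤ _ := Finset.sum_le_sum_of_subset_of_nonneg (Finset.subset_univ _)
        fun j _ _ => Finset.sum_nonneg fun i _ => by positivity
  have h2 : ∑ w ∈ W, ((B w).card : ℝ) = ∑ i, ((a i).card : ℝ) := by
    simp only [B, Finset.card_filter]
    push_cast
    rw [Finset.sum_comm]
    refine Finset.sum_congr rfl fun i _ => ?_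
    rw [Finset.sum_boole]
    congr 2
    ext w
    simp only [Finset.mem_filter, W, Finset.mem_biUnion, Finset.mem_univ, true_and]
    exact ⟨fun h => h.2, fun h => ⟨⟨i, h⟩, h⟩⟩
  have h3 : ∀ i j, ∑ w ∈ W, (if R n i j ∧ w ∈ a i ∧ w ∉ a j then (1:ℝ) else 0) ≤
      if R n i j then 1 / 100 * ((a i).card : ℝ) else 0 := by
    intro i j
    by_cases hij : R n i j
    · simp only [hij, true_and, if_true]
      rw [Finset.sum_boole]
      have h4 := hA4 (e n i) (e n j) ((hR n i j hij).trans_lt (by norm_num))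
      have h5 : (W.filter (fun w => w ∈ a i ∧ w ∉ a j)).card ≤
          (symmDiff (A (e n i)) (A (e n j))).ncard := by
        rw [← Set.ncard_coe_finset]
        refine Set.ncard_le_ncard ?_ ((hA1 _).symmDiff (hA1 _))
        intro w hw
        simp only [Finset.coe_filter, Set.mem_ofPred_eq, ha] at hw
        exact Or.inl ⟨hw.2.1, hw.2.2⟩
      have h6 : (A (e n i) ∩ A (e n j)).ncard ≤ (a i).card := by
        rw [← Set.ncard_coe_finset]
        refine Set.ncard_le_ncard ?_ (Finset.finite_toSet _)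
        intro w hw
        exact (ha i w).2 hw.1
      have h5' : ((W.filter (fun w => w ∈ a i ∧ w ∉ a j)).card : ℝ) ≤
          (symmDiff (A (e n i)) (A (e n j))).ncard := by exact_mod_cast h5
      have h6' : ((A (e n i) ∩ A (e n j)).ncard : ℝ) ≤ (a i).card := by exact_mod_cast h6
      linarith
    · simp [hij]
  have h4 : ∀ i, ∑ j, (if R n i j then 1 / 100 * ((a i).card : ℝ) else 0) ≤
      48 / 100 * ((a i).card : ℝ) := by
    intro i
    rw [← Finset.sum_filter, Finset.sum_const, nsmul_eq_mul]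
    have h5 : ((univ.filter (fun j => R n i j)).card : ℝ) ≤ 48 := by
      exact_mod_cast hdeg n i _ fun y hy => (Finset.mem_filter.1 hy).2
    have h6 : (0:ℝ) ≤ (a i).card := Nat.cast_nonneg _
    nlinarith
  have h5 : (1 / 2 : ℝ) * ∑ i, ((a i).card : ℝ) ≤ 48 / 100 * ∑ i, ((a i).card : ℝ) := by
    calc (1 / 2 : ℝ) * ∑ i, ((a i).card : ℝ) = ∑ w ∈ W, (1 / 2 : ℝ) * (B w).card := by
          rw [← h2, Finset.mul_sum]
      _ ≤ ∑ w ∈ W, ∑ i, ∑ j, if R n i j ∧ w ∈ a i ∧ w ∉ a j then (1:ℝ) else 0 :=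
          Finset.sum_le_sum fun w _ => h1 w
      _ = ∑ i, ∑ j, ∑ w ∈ W, if R n i j ∧ w ∈ a i ∧ w ∉ a j then (1:ℝ) else 0 := by
          rw [Finset.sum_comm]
          exact Finset.sum_congr rfl fun i _ => Finset.sum_comm
      _ ≤ ∑ i, 48 / 100 * ((a i).card : ℝ) :=
          Finset.sum_le_sum fun i _ => (Finset.sum_le_sum fun j _ => h3 i j).trans (h4 i)
      _ = _ := by rw [Finset.mul_sum]
  have h6 : (0:ℝ) < ∑ i, ((a i).card : ℝ) := by
    refine Finset.sum_pos (fun i _ => ?_) Finset.univ_nonempty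
    exact_mod_cast Finset.card_pos.2 ⟨_, (ha i _).2 (hA2 _)⟩
  linarith

theorem exists_not_propertyA : ∃ (X : Type) (_ : MetricSpace X), BddGeom X ∧ ¬ PropertyA X := by
  choose R hsymm hirr hdeg hexp _ using
    fun n : ℕ => Pool.Agent.Helper799.Graph.exists_graph (n + 1) (Nat.succ_pos n)
  let V := Σ n : ℕ, Fin (n + 1)
  have : Infinite V := Infinite.of_injective (fun n : ℕ => (⟨n, 0⟩ : V))
    fun a b h => congrArg Sigma.fst h
  obtain ⟨enc⟩ : Nonempty (V ≃ ℕ) := nonempty_equiv_of_countable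
  let G : SimpleGraph V := SimpleGraph.fromRel fun x y =>
    enc x + 1 = enc y ∨ ∃ n i j, R n i j ∧ x = ⟨n, i⟩ ∧ y = ⟨n, j⟩
  have hconn : G.Connected := by
    have h1 : ∀ k : ℕ, G.Reachable (enc.symm 0) (enc.symm k) := by
      intro k
      induction k with
      | zero => rfl
      | succ k ih =>
        refine ih.trans (SimpleGraph.Adj.reachable ?_)
        simp [G]
    have : Nonempty V := ⟨⟨0, 0⟩⟩
    refine SimpleGraph.Connected.mk fun x y => ?_
    have hx := h1 (enc x)
    have hy := h1 (enc y)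
    simp only [Equiv.symm_apply_apply] at hx hy
    exact hx.symm.trans hy
  obtain ⟨M, hM1, hM2⟩ := exists_metric G hconn 50 (by
    rintro ⟨n, i⟩
    refine ⟨{enc.symm (enc ⟨n, i⟩ + 1), enc.symm (enc ⟨n, i⟩ - 1)} ∪
      (univ.filter (fun j => R n i j)).image (fun j => (⟨n, j⟩ : V)), ?_, ?_⟩
    · refine (Finset.card_union_le _ _).trans ?_
      have h1 := hdeg n i (univ.filter (fun j => R n i j)) fun y hy => (Finset.mem_filter.1 hy).2
      have h2 : ((univ.filter (fun j => R n i j)).image (fun j => (⟨n, j⟩ : V))).card ≤ 48 :=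
        Finset.card_image_le.trans h1
      exact add_le_add Finset.card_le_two h2
    · intro y hy
      simp only [G, SimpleGraph.fromRel_adj] at hy
      simp only [Finset.mem_union, Finset.mem_insert, Finset.mem_singleton, Finset.mem_image,
        Finset.mem_filter, Finset.mem_univ, true_and]
      rcases hy.2 with (h | ⟨m, a, b, h, h1, h2⟩) | (h | ⟨m, a, b, h, h1, h2⟩)
      · left; left; rw [h]; simp
      · right
        cases h1
        exact ⟨b, h, h2.symm⟩
      · left; right; rw [← h]; simp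
      · right
        cases h2
        exact ⟨a, hsymm _ _ _ h, h1.symm⟩)
  refine ⟨V, M, hM1, not_propertyA hM1 R (fun n i => ⟨n, i⟩) (fun n a b h => ?_) ?_ hdeg hexp⟩
  · cases h; rfl
  · intro n i j hij
    apply hM2
    simp only [G, SimpleGraph.fromRel_adj]
    refine ⟨fun h => ?_, Or.inl (Or.inr ⟨n, i, j, hij, rfl, rfl⟩)⟩
    cases h
    exact hirr _ _ hij

theorem main (𝕜 E : Type) [RCLike 𝕜] [NormedAddCommGroup E] [NormedSpace 𝕜 E] [Nontrivial E]
    (p : ℝ≥0∞) [hp1 : Fact (1 ≤ p)] (hp : p ≠ ⊤) :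
    (∀ (X : Type) [MetricSpace X] [MeasurableSpace X] [BorelSpace X],
      BddGeom X → HasONL 𝕜 E p X → PropertyA X) ↔ 1 < p := by
  constructor
  · intro h
    refine lt_of_le_of_ne hp1.out ?_
    rintro rfl
    obtain ⟨X, M, h1, h2⟩ := exists_not_propertyA
    letI : MeasurableSpace X := borel X
    haveI : BorelSpace X := ⟨rfl⟩
    exact h2 (h X h1 (hasONL_one 𝕜 E h1))
  · intro h X _ _ _ hX hO
    exact propertyA_of_hasONL 𝕜 hX h hp hO

end Pool.Agent.H125Z.ONL
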