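import Pool.Agent.H125Z.ONL.Round

set_option autoImplicit false

namespace Pool.Agent.H125Z.ONL

open Finset MeasureTheory
open scoped Classical ENNReal

variable {X : Type} [MetricSpace X]

lemma BddGeom.countable (hX : BddGeom X) : Countable X := by
  rcases isEmpty_or_nonempty X with h | ⟨⟨x0⟩⟩
  · infer_instance
  have h1 : (Set.univ : Set X) = ⋃ n : ℕ, Metric.ball x0 (n + 1) := by
    ext y
    simp only [Set.mem_univ, Set.mem_iUnion, Metric.mem_ball, true_iff]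
    obtain ⟨n, hn⟩ := exists_nat_gt (dist y x0)
    exact ⟨n, by linarith⟩
  rw [← Set.countable_univ_iff, h1]
  refine Set.countable_iUnion fun n => ?_
  obtain ⟨N, hN⟩ := hX (n + 1) (by positivity)
  exact (hN x0).1.countable

lemma BddGeom.isOpen_singleton (hX : BddGeom X) (x : X) : IsOpen ({x} : Set X) := by
  obtain ⟨N, hN⟩ := hX 1 one_pos
  have h1 : ({x} : Set X) = Metric.ball x 1 \ (Metric.ball x 1 \ {x}) := by
    ext y
    simp only [Set.mem_singleton_iff, Set.mem_sdiff, not_and, not_not]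
    constructor
    · rintro rfl; simp
    · rintro ⟨h, h'⟩; exact h' h
  rw [h1]
  exact Metric.isOpen_ball.sdiff ((hN x).1.subset Set.sdiff_subset).isClosed

section meas

variable [MeasurableSpace X] [BorelSpace X]

/-- finitely supported measure with masses `m` -/
noncomputable def nu (F : Finset X) (m : F → ℝ) : Measure X :=
  ∑ x : F, ENNReal.ofReal (m x) • Measure.dirac (x : X)

omit [MetricSpace X] [BorelSpace X] in
lemma nu_finite (F : Finset X) (m : F → ℝ) : IsFiniteMeasure (nu F m) := by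
  constructor
  unfold nu
  simp only [Measure.coe_finsetSum, Finset.sum_apply, Measure.smul_apply, measure_univ,
    smul_eq_mul, mul_one]
  exact ENNReal.sum_lt_top.2 fun x _ => ENNReal.ofReal_lt_top

omit [MetricSpace X] [BorelSpace X] in
lemma nu_atom {F : Finset X} {m : F → ℝ} (hm : ∀ x, 0 < m x) {P : X → Prop}
    (h : ∀ᵐ z ∂(nu F m), P z) (x : F) : P x := by
  by_contra hP
  rw [ae_iff] at h
  have h1 : nu F m {(x : X)} = 0 :=
    measure_mono_null (by intro z hz; rw [Set.mem_singleton_iff.1 hz]; exact hP) h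
  unfold nu at h1
  simp only [Measure.coe_finsetSum, Finset.sum_apply, Measure.smul_apply, smul_eq_mul,
    Finset.sum_eq_zero_iff, Finset.mem_univ, true_imp_iff] at h1
  have h2 := h1 x
  simp only [Measure.dirac_apply_of_mem (Set.mem_singleton _), mul_one,
    ENNReal.ofReal_eq_zero] at h2
  linarith [hm x]

lemma nu_ae {F : Finset X} {m : F → ℝ} {P : X → Prop} (h : ∀ x : F, P x) :
    ∀ᵐ z ∂(nu F m), P z := by
  rw [ae_iff]
  unfold nu
  simp only [Measure.coe_finsetSum, Finset.sum_apply, Measure.smul_apply, smul_eq_mul]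
  refine Finset.sum_eq_zero fun x _ => ?_
  rw [Measure.dirac_apply]
  simp [h x]

variable {E : Type} [NormedAddCommGroup E]

lemma nu_eLpNorm {F : Finset X} {m : F → ℝ} (hm : ∀ x, 0 < m x) {p : ℝ≥0∞} (hp0 : p ≠ 0)
    (hp : p ≠ ⊤) (h : X → E) :
    eLpNorm h p (nu F m) =
      ENNReal.ofReal ((Phi p.toReal m (fun x => ‖h x‖)) ^ (1 / p.toReal)) := by
  have hq : 0 < p.toReal := ENNReal.toReal_pos hp0 hp
  rw [eLpNorm_eq_lintegral_rpow_enorm_toReal hp0 hp]
  unfold nu Phi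
  rw [lintegral_finsetSum_measure]
  simp only [lintegral_smul_measure, lintegral_dirac, smul_eq_mul]
  rw [← ENNReal.ofReal_rpow_of_nonneg
    (Finset.sum_nonneg fun x _ => mul_nonneg (hm x).le (by positivity)) (by positivity)]
  congr 1
  rw [ENNReal.ofReal_sum_of_nonneg fun x _ => mul_nonneg (hm x).le (by positivity)]
  refine Finset.sum_congr rfl fun x _ => ?_
  rw [ENNReal.ofReal_mul (hm x).le, ← ENNReal.ofReal_rpow_of_nonneg (norm_nonneg _) hq.le,
    ofReal_norm]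

lemma nu_memLp [Countable X] {F : Finset X} {m : F → ℝ} (hm : ∀ x, 0 < m x) {p : ℝ≥0∞}
    (hp0 : p ≠ 0) (hp : p ≠ ⊤) (h : X → E) : MemLp h p (nu F m) :=
  ⟨AEStronglyMeasurable.of_discrete, by rw [nu_eLpNorm hm hp0 hp]; exact ENNReal.ofReal_lt_top⟩

lemma nu_norm {F : Finset X} {m : F → ℝ} (hm : ∀ x, 0 < m x) {p : ℝ≥0∞} (hp0 : p ≠ 0)
    (hp : p ≠ ⊤) (g : Lp E p (nu F m)) :
    ‖g‖ = (Phi p.toReal m (fun x => ‖g x‖)) ^ (1 / p.toReal) := by
  rw [Lp.norm_def, nu_eLpNorm hm hp0 hp, ENNReal.toReal_ofReal]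
  exact Real.rpow_nonneg (Phi_nonneg _ hm fun x => norm_nonneg _) _

lemma nu_norm_rpow {F : Finset X} {m : F → ℝ} (hm : ∀ x, 0 < m x) {p : ℝ≥0∞} (hp0 : p ≠ 0)
    (hp : p ≠ ⊤) (g : Lp E p (nu F m)) :
    ‖g‖ ^ p.toReal = Phi p.toReal m (fun x => ‖g x‖) := by
  have hq : 0 < p.toReal := ENNReal.toReal_pos hp0 hp
  rw [nu_norm hm hp0 hp, one_div,
    Real.rpow_inv_rpow (Phi_nonneg _ hm fun x => norm_nonneg _) hq.ne']

variable (𝕜 : Type) [RCLike 𝕜] [NormedSpace 𝕜 E]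

/-- action of a matrix on vector valued functions -/
noncomputable def act {F : Finset X} (Q : Matrix F F ℝ) (g : X → E) : X → E :=
  fun x => if hx : x ∈ F then ∑ y : F, ((Q ⟨x, hx⟩ y : ℝ) : 𝕜) • g y else 0

omit [MetricSpace X] [MeasurableSpace X] [BorelSpace X] in
lemma act_apply {F : Finset X} (Q : Matrix F F ℝ) (g : X → E) (x : F) :
    act 𝕜 Q g x = ∑ y : F, ((Q x y : ℝ) : 𝕜) • g y := by
  simp [act]

omit [MetricSpace X] [MeasurableSpace X] [BorelSpace X] in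
lemma norm_act_le {F : Finset X} {Q : Matrix F F ℝ} (hQ : ∀ x y, 0 ≤ Q x y) (g : X → E) (x : F) :
    ‖act 𝕜 Q g x‖ ≤ Q.mulVec (fun y => ‖g y‖) x := by
  rw [act_apply]
  refine (norm_sum_le _ _).trans (le_of_eq ?_)
  refine Finset.sum_congr rfl fun y _ => ?_
  rw [norm_smul, RCLike.norm_ofReal, abs_of_nonneg (hQ x y)]

lemma exists_op [Countable X] {F : Finset X} {m : F → ℝ} (hm : ∀ x, 0 < m x) {p : ℝ≥0∞}
    [Fact (1 ≤ p)] (hp : p ≠ ⊤) {Q : Matrix F F ℝ} (hQ : ∀ x y, 0 ≤ Q x y)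
    (hQ1 : ∀ x, ∑ y, Q x y = 1) :
    ∃ T : Lp E p (nu F m) →L[𝕜] Lp E p (nu F m), ∀ g (x : F), T g x = act 𝕜 Q g x := by
  have hp0 : p ≠ 0 := (zero_lt_one.trans_le (Fact.out : 1 ≤ p)).ne'
  have hq : 0 < p.toReal := ENNReal.toReal_pos hp0 hp
  let T0 : Lp E p (nu F m) →ₗ[𝕜] Lp E p (nu F m) :=
    { toFun := fun g => (nu_memLp hm hp0 hp (act 𝕜 Q g)).toLp _
      map_add' := by
        intro g h
        rw [← MemLp.toLp_add]
        refine MemLp.toLp_congr _ _ (nu_ae fun x => ?_)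
        simp only [Pi.add_apply, act_apply]
        rw [← Finset.sum_add_distrib]
        refine Finset.sum_congr rfl fun y _ => ?_
        rw [nu_atom hm (Lp.coeFn_add g h) y, Pi.add_apply, smul_add]
      map_smul' := by
        intro a g
        rw [RingHom.id_apply, ← MemLp.toLp_const_smul]
        refine MemLp.toLp_congr _ _ (nu_ae fun x => ?_)
        simp only [Pi.smul_apply, act_apply]
        rw [Finset.smul_sum]
        refine Finset.sum_congr rfl fun y _ => ?_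
        rw [nu_atom hm (Lp.coeFn_smul a g) y, Pi.smul_apply, smul_comm] }
  have hT0 : ∀ g (x : F), T0 g x = act 𝕜 Q g x := fun g x =>
    nu_atom hm (MemLp.coeFn_toLp (nu_memLp hm hp0 hp (act 𝕜 Q g))) x
  refine ⟨T0.mkContinuousOfExistsBound ⟨(∑ x, m x) ^ (1 / p.toReal) *
    ∑ y, (m y)⁻¹ ^ (1 / p.toReal), fun g => ?_⟩, hT0⟩
  set K : ℝ := ∑ y, (m y)⁻¹ ^ (1 / p.toReal) with hK
  have hK0 : ∀ y, 0 ≤ (m y)⁻¹ ^ (1 / p.toReal) := fun y =>
    Real.rpow_nonneg (inv_nonneg.2 (hm y).le) _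
  have h1 : ∀ y : F, ‖g y‖ ≤ K * ‖g‖ := by
    intro y
    have h2 : m y * ‖g y‖ ^ p.toReal ≤ ‖g‖ ^ p.toReal := by
      rw [nu_norm_rpow hm hp0 hp]
      exact Finset.single_le_sum (f := fun x : F => m x * ‖g x‖ ^ p.toReal)
        (fun x _ => mul_nonneg (hm x).le (by positivity)) (Finset.mem_univ y)
    have h3 : ‖g y‖ ^ p.toReal ≤ ((m y)⁻¹ ^ (1 / p.toReal) * ‖g‖) ^ p.toReal := by
      rw [Real.mul_rpow (hK0 y) (norm_nonneg _), one_div,
        Real.rpow_inv_rpow (inv_nonneg.2 (hm y).le) hq.ne', ← div_eq_inv_mul, le_div_iff₀ (hm y)]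
      linarith
    have h4 := (Real.rpow_le_rpow_iff (norm_nonneg _)
      (mul_nonneg (hK0 y) (norm_nonneg _)) hq).1 h3
    refine h4.trans (mul_le_mul_of_nonneg_right ?_ (norm_nonneg _))
    exact Finset.single_le_sum (f := fun y : F => (m y)⁻¹ ^ (1 / p.toReal))
      (fun x _ => hK0 x) (Finset.mem_univ y)
  have hKn : 0 ≤ K * ‖g‖ := mul_nonneg (Finset.sum_nonneg fun y _ => hK0 y) (norm_nonneg _)
  have h5 : ∀ x : F, ‖T0 g x‖ ≤ K * ‖g‖ := by
    intro x
    rw [hT0]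
    refine (norm_act_le 𝕜 hQ g x).trans ?_
    calc ∑ y, Q x y * ‖g y‖ ≤ ∑ y, Q x y * (K * ‖g‖) :=
          Finset.sum_le_sum fun y _ => mul_le_mul_of_nonneg_left (h1 y) (hQ x y)
      _ = K * ‖g‖ := by rw [← Finset.sum_mul, hQ1, one_mul]
  have hM : 0 ≤ ∑ x, m x := Finset.sum_nonneg fun x _ => (hm x).le
  have h6 : ‖T0 g‖ ^ p.toReal ≤ ((∑ x, m x) ^ (1 / p.toReal) * (K * ‖g‖)) ^ p.toReal := by
    rw [nu_norm_rpow hm hp0 hp, Real.mul_rpow (Real.rpow_nonneg hM _) hKn, one_div,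
      Real.rpow_inv_rpow hM hq.ne', Finset.sum_mul]
    exact Finset.sum_le_sum fun x _ => mul_le_mul_of_nonneg_left
      (Real.rpow_le_rpow (norm_nonneg _) (h5 x) hq.le) (hm x).le
  rw [mul_assoc]
  exact (Real.rpow_le_rpow_iff (norm_nonneg _) (mul_nonneg (Real.rpow_nonneg hM _) hKn) hq).1 h6

theorem finONL_of_hasONL [Nontrivial E] (hX : BddGeom X) {p : ℝ≥0∞} [Fact (1 ≤ p)] (hp : p ≠ ⊤)
    (h : HasONL 𝕜 E p X) :
    ∃ c : ℝ, 0 < c ∧ ∃ f : ℕ → ℕ, ∀ F : Finset X, F.Nonempty → FinONL p.toReal c f F := by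
  have := hX.countable
  have hp0 : p ≠ 0 := (zero_lt_one.trans_le (Fact.out : 1 ≤ p)).ne'
  have hq : 0 < p.toReal := ENNReal.toReal_pos hp0 hp
  obtain ⟨c, hc, _, f, _, h⟩ := h
  refine ⟨c, hc, f, fun F ⟨x0, hx0⟩ m hm r Q hQ hQ1 hQr => ?_⟩
  have := nu_finite F m
  have hν : nu F m ≠ 0 := by
    intro h0
    exact nu_atom (P := fun _ => False) hm (by rw [h0]; simp) ⟨x0, hx0⟩
  obtain ⟨T, hT⟩ := exists_op (E := E) 𝕜 hm hp hQ hQ1
  obtain ⟨ξ, hξ0, ⟨S, hS1, hS2⟩, hξ⟩ := h (nu F m) hν r T (by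
    intro x y hxy
    refine ⟨{x}, {y}, hX.isOpen_singleton x, hX.isOpen_singleton y, rfl, rfl, fun g hg => ?_⟩
    refine nu_ae fun z hz => ?_
    rw [hT, act_apply]
    refine Finset.sum_eq_zero fun w _ => ?_
    by_cases hw : (w : X) = x
    · have : Q z w = 0 := by
        by_contra hne
        have h1 : dist (z : X) w ≤ r := hQr z w hne
        rw [Set.mem_singleton_iff.1 hz, hw, dist_comm] at h1
        linarith
      simp [this]
    · rw [nu_atom hm hg w hw, smul_zero])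
  have hT1 : 1 ≤ ‖T‖ := by
    obtain ⟨v, hv⟩ := exists_ne (0 : E)
    set g0 : Lp E p (nu F m) := (nu_memLp hm hp0 hp (fun _ => v)).toLp _ with hg0
    have hg : ∀ x : F, g0 x = v := fun x =>
      nu_atom hm (MemLp.coeFn_toLp (nu_memLp hm hp0 hp (fun _ => v))) x
    have h1 : T g0 = g0 := by
      refine Lp.ext (nu_ae fun x => ?_)
      rw [hT, act_apply, hg]
      simp only [hg]
      rw [← Finset.sum_smul, ← RCLike.ofReal_sum, hQ1]
      simp
    have h2 : g0 ≠ 0 := by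
      intro h0
      apply hv
      rw [← hg ⟨x0, hx0⟩, h0]
      exact nu_atom hm (Lp.coeFn_zero E p (nu F m)) ⟨x0, hx0⟩
    have h3 := T.le_opNorm g0
    rw [h1] at h3
    have h4 : 0 < ‖g0‖ := norm_pos_iff.2 h2
    by_contra h5
    push Not at h5
    nlinarith
  refine ⟨fun x => ‖ξ x‖, fun x => norm_nonneg _, ?_, ?_, ?_⟩
  · by_contra hcon
    push Not at hcon
    apply hξ0
    refine Lp.ext (nu_ae fun x => ?_)
    rw [norm_eq_zero.1 (hcon x)]
    exact (nu_atom hm (Lp.coeFn_zero E p (nu F m)) x).symm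
  · intro a b ha hb
    refine hS1 a ?_ b ?_
    · by_contra h1
      exact ha (norm_eq_zero.2 (nu_atom hm hS2 a h1))
    · by_contra h1
      exact hb (norm_eq_zero.2 (nu_atom hm hS2 b h1))
  · rw [← nu_norm_rpow hm hp0 hp, ← Real.mul_rpow hc.le (norm_nonneg _)]
    have h1 : c * ‖ξ‖ ≤ ‖T ξ‖ := by
      refine le_trans ?_ hξ
      have := mul_le_mul_of_nonneg_left hT1 (mul_nonneg hc.le (norm_nonneg ξ))
      nlinarith
    refine (Real.rpow_le_rpow (mul_nonneg hc.le (norm_nonneg _)) h1 hq.le).trans ?_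
    rw [nu_norm_rpow hm hp0 hp]
    refine Finset.sum_le_sum fun x _ => mul_le_mul_of_nonneg_left ?_ (hm x).le
    refine Real.rpow_le_rpow (norm_nonneg _) ?_ hq.le
    simp only [hT]
    exact norm_act_le 𝕜 hQ ξ x

theorem propertyA_of_hasONL [Nontrivial E] (hX : BddGeom X) {p : ℝ≥0∞} [Fact (1 ≤ p)]
    (hp1 : 1 < p) (hp : p ≠ ⊤) (h : HasONL 𝕜 E p X) : PropertyA X := by
  obtain ⟨c, hc, f, hf⟩ := finONL_of_hasONL 𝕜 hX hp h
  have hq : 1 < p.toReal := by
    rw [← ENNReal.toReal_one]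
    exact (ENNReal.toReal_lt_toReal ENNReal.one_ne_top hp).2 hp1
  exact propertyA_of_wfolner hX fun R ε hε => wfolner hq hc f hf R hε

end meas

end Pool.Agent.H125Z.ONL
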