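import Pool.Agent.H125Z.ONL.Comb

set_option autoImplicit false

namespace Pool.Agent.H125Z.ONL

open Finset
open scoped Classical

variable {X : Type} [MetricSpace X]

/-- the finite set of pairs under the graph of an integer function -/
noncomputable def under (F : Finset X) (M : ℕ) (a : X → ℕ) : Finset (X × ℕ) :=
  (F ×ˢ Icc 1 M).filter (fun w => w.2 ≤ a w.1)

omit [MetricSpace X] in
lemma under_card (F : Finset X) (M : ℕ) (a : X → ℕ) (ha : ∀ z ∈ F, a z ≤ M) :
    (under F M a).card = ∑ z ∈ F, a z := by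
  unfold under
  rw [Finset.card_filter, Finset.sum_product]
  refine Finset.sum_congr rfl fun z hz => ?_
  rw [← Finset.card_filter]
  have : (Icc 1 M).filter (fun j => j ≤ a z) = Icc 1 (a z) := by
    ext j
    have := ha z hz
    simp only [Finset.mem_filter, Finset.mem_Icc]
    omega
  simp [this]

omit [MetricSpace X] in
lemma under_sdiff (F : Finset X) (M : ℕ) (a b : X → ℕ) :
    (under F M a \ under F M b).card ≤ ∑ z ∈ F, (a z - b z) := by
  have h1 : under F M a \ under F M b ⊆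
      (F ×ˢ Icc 1 M).filter (fun w => b w.1 < w.2 ∧ w.2 ≤ a w.1) := by
    intro w hw
    simp only [under, Finset.mem_sdiff, Finset.mem_filter, not_and, not_le] at hw ⊢
    exact ⟨hw.1.1, hw.2 hw.1.1, hw.1.2⟩
  refine (Finset.card_le_card h1).trans ?_
  rw [Finset.card_filter, Finset.sum_product]
  refine Finset.sum_le_sum fun z _ => ?_
  rw [← Finset.card_filter]
  have : (Icc 1 M).filter (fun j => b z < j ∧ j ≤ a z) ⊆ Ioc (b z) (a z) := by
    intro j hj
    simp only [Finset.mem_filter] at hj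
    exact Finset.mem_Ioc.2 hj.2
  refine (Finset.card_le_card this).trans ?_
  simp

lemma round_fin {S η : ℝ} {N : ℕ} (hN : ∀ x : X, (Metric.ball x (S + 1)).Finite ∧
    (Metric.ball x (S + 1)).ncard ≤ N) (M : ℕ) (F : Finset X) (ξ : X → X → ℝ) (hξ : Good F S ξ)
    (x y : X) (hx : x ∈ F) (hxy : ∑ z ∈ F, |ξ x z - ξ y z| ≤ η) :
    ((under F M (fun z => ⌈M * ξ x z⌉₊) \ under F M (fun z => ⌈M * ξ y z⌉₊)).card : ℝ) ≤
      M * η + N := by
  obtain ⟨h0, h1, h2⟩ := hξ
  have h3 := under_sdiff F M (fun z => ⌈M * ξ x z⌉₊) (fun z => ⌈M * ξ y z⌉₊)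
  have h4 : ∀ z ∈ F, ((⌈M * ξ x z⌉₊ - ⌈M * ξ y z⌉₊ : ℕ) : ℝ) ≤
      M * |ξ x z - ξ y z| + if ξ x z ≠ 0 then 1 else 0 := by
    intro z _
    have hM : (0:ℝ) ≤ M := Nat.cast_nonneg M
    have ha : 0 ≤ M * |ξ x z - ξ y z| := by positivity
    by_cases hz : ξ x z = 0
    · simp [hz]; positivity
    · simp only [ne_eq, hz, not_false_iff, if_true]
      rcases le_total ⌈M * ξ x z⌉₊ ⌈M * ξ y z⌉₊ with h | h
      · rw [Nat.sub_eq_zero_of_le h]; simp; positivity
      · rw [Nat.cast_sub h]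
        have e1 := Nat.ceil_lt_add_one (mul_nonneg hM (h0 x z))
        have e2 := Nat.le_ceil (M * ξ y z)
        have e3 : M * (ξ x z - ξ y z) ≤ M * |ξ x z - ξ y z| :=
          mul_le_mul_of_nonneg_left (le_abs_self _) hM
        linarith
  have h5 : ∑ z ∈ F, (if ξ x z ≠ 0 then (1:ℝ) else 0) ≤ N := by
    rw [Finset.sum_boole]
    have : F.filter (fun z => ξ x z ≠ 0) ⊆ (hN x).1.toFinset := by
      intro z hz
      rw [Finset.mem_filter] at hz
      have := h2 x hx z hz.1 hz.2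
      simp only [Set.Finite.mem_toFinset, Metric.mem_ball]
      rw [dist_comm]; linarith
    have h6 := Finset.card_le_card this
    have h7 := (hN x).2
    rw [Set.ncard_eq_toFinset_card _ (hN x).1] at h7
    exact_mod_cast h6.trans h7
  calc _ ≤ ((∑ z ∈ F, (⌈M * ξ x z⌉₊ - ⌈M * ξ y z⌉₊) : ℕ) : ℝ) := by exact_mod_cast h3
    _ = ∑ z ∈ F, ((⌈M * ξ x z⌉₊ - ⌈M * ξ y z⌉₊ : ℕ) : ℝ) := by push_cast; rfl
    _ ≤ ∑ z ∈ F, (M * |ξ x z - ξ y z| + if ξ x z ≠ 0 then 1 else 0) := Finset.sum_le_sum h4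
    _ ≤ _ := by
      rw [Finset.sum_add_distrib, ← Finset.mul_sum]
      have := mul_le_mul_of_nonneg_left hxy (Nat.cast_nonneg (α := ℝ) M)
      linarith

lemma finA (hX : BddGeom X) (hF : ∀ (R : ℕ) (ε : ℝ), 0 < ε → ∃ S, 0 ≤ S ∧ WFolner X R ε S)
    (R : ℝ) {ε : ℝ} (hε : 0 < ε) :
    ∃ (S : ℝ) (M : ℕ), 0 ≤ S ∧ ∀ F : Finset X, ∃ A : X → Finset (X × ℕ),
      (∀ x ∈ F, (x, 0) ∈ A x ∧ ∀ w ∈ A x, dist w.1 x ≤ S ∧ w.2 ≤ M) ∧
      ∀ x ∈ F, ∀ y ∈ F, dist x y < R →
        ((symmDiff (A x) (A y)).card : ℝ) < ε * ((A x ∩ A y).card : ℝ) := by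
  set η : ℝ := min ε 1 / 8 with hη
  have hη0 : 0 < η := by have : 0 < min ε 1 := lt_min hε one_pos; positivity
  have hη1 : η ≤ 1 / 8 := by have := min_le_right ε 1; rw [hη]; linarith
  have hη2 : η ≤ ε / 8 := by have := min_le_left ε 1; rw [hη]; linarith
  obtain ⟨S, hS, hW⟩ := hF ⌈R⌉₊ (η / 8) (by positivity)
  obtain ⟨N, hN⟩ := hX (S + 1) (by linarith)
  obtain ⟨M, hM⟩ := exists_nat_gt (max (3 * (N:ℝ)) (4 * (2 * N + 2) / ε))
  have hM1 : 3 * (N:ℝ) < M := (le_max_left _ _).trans_lt hM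
  have hM2 : 4 * (2 * (N:ℝ) + 2) < M * ε := by
    have := (le_max_right _ _).trans_lt hM
    rwa [div_lt_iff₀ hε] at this
  have hM0 : (0:ℝ) ≤ M := Nat.cast_nonneg M
  refine ⟨S, M, hS, fun F => ?_⟩
  obtain ⟨ξ, hξ, hξR⟩ := minimax (by positivity) hW F
  set B : X → Finset (X × ℕ) := fun x => under F M (fun z => ⌈M * ξ x z⌉₊) with hB
  refine ⟨fun x => insert (x, 0) (B x), ?_, ?_⟩
  · intro x hx
    refine ⟨Finset.mem_insert_self _ _, fun w hw => ?_⟩
    rcases Finset.mem_insert.1 hw with rfl | hw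
    · simpa using hS
    · simp only [hB, under, Finset.mem_filter, Finset.mem_product, Finset.mem_Icc] at hw
      refine ⟨?_, hw.1.2.2⟩
      rw [dist_comm]
      refine hξ.2.2 x hx w.1 hw.1.1 fun h0 => ?_
      have h1 := hw.1.2.1.trans hw.2
      simp [h0] at h1
  · intro x hx y hy hxy
    have hxy' : dist x y ≤ (⌈R⌉₊ : ℕ) := hxy.le.trans (Nat.le_ceil R)
    have d1 : ∑ z ∈ F, |ξ x z - ξ y z| ≤ η := (hξR x hx y hy hxy').trans (by linarith)
    have d2 : ∑ z ∈ F, |ξ y z - ξ x z| ≤ η := by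
      simp only [abs_sub_comm (ξ y _)]; exact d1
    have c1 : ((B x \ B y).card : ℝ) ≤ M * η + N := round_fin hN M F ξ hξ x y hx d1
    have c2 : ((B y \ B x).card : ℝ) ≤ M * η + N := round_fin hN M F ξ hξ y x hy d2
    have c3 : (M:ℝ) ≤ (B x).card := by
      rw [hB]
      simp only
      rw [under_card]
      · push_cast
        calc (M:ℝ) = ∑ z ∈ F, M * ξ x z := by rw [← Finset.mul_sum, hξ.2.1 x hx, mul_one]
          _ ≤ _ := Finset.sum_le_sum fun z _ => Nat.le_ceil _
      · intro z hz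
        rw [Nat.ceil_le]
        have : ξ x z ≤ 1 := by
          rw [← hξ.2.1 x hx]
          exact Finset.single_le_sum (f := fun z => ξ x z) (fun z _ => hξ.1 x z) hz
        nlinarith
    have c4 : (B x).card ≤ (insert (x, 0) (B x) ∩ insert (y, 0) (B y)).card + (B x \ B y).card := by
      refine (Finset.card_le_card (t := (insert (x, 0) (B x) ∩ insert (y, 0) (B y)) ∪
        (B x \ B y)) ?_).trans (Finset.card_union_le _ _)
      intro w hw
      by_cases hwy : w ∈ B y <;> simp [hw, hwy]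
    have c5 : (symmDiff (insert (x, 0) (B x)) (insert (y, 0) (B y))).card ≤
        (B x \ B y).card + (B y \ B x).card + 2 := by
      have hsub : symmDiff (insert (x, 0) (B x)) (insert (y, 0) (B y)) ⊆
          ((B x \ B y) ∪ (B y \ B x)) ∪ {(x, 0), (y, 0)} := by
        intro w hw
        simp only [Finset.mem_symmDiff, Finset.mem_insert, not_or] at hw
        simp only [Finset.mem_union, Finset.mem_sdiff, Finset.mem_insert, Finset.mem_singleton]
        tauto
      refine (Finset.card_le_card hsub).trans ((Finset.card_union_le _ _).trans ?_)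
      exact add_le_add (Finset.card_union_le _ _) Finset.card_le_two
    have c4' : ((B x).card : ℝ) ≤ (insert (x, 0) (B x) ∩ insert (y, 0) (B y)).card +
      (B x \ B y).card := by exact_mod_cast c4
    have c5' : ((symmDiff (insert (x, 0) (B x)) (insert (y, 0) (B y))).card : ℝ) ≤
        (B x \ B y).card + (B y \ B x).card + 2 := by exact_mod_cast c5
    have e1 : M * η ≤ M / 8 := by nlinarith
    have e2 : M * η ≤ M * ε / 8 := by nlinarith
    have e3 : (M:ℝ) / 2 ≤ (insert (x, 0) (B x) ∩ insert (y, 0) (B y)).card := by linarith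
    have e4 := mul_le_mul_of_nonneg_left e3 hε.le
    nlinarith

theorem propertyA_of_wfolner (hX : BddGeom X)
    (hF : ∀ (R : ℕ) (ε : ℝ), 0 < ε → ∃ S, 0 ≤ S ∧ WFolner X R ε S) : PropertyA X := by
  intro R _ ε hε
  obtain ⟨S, M, hS, h⟩ := finA hX hF R hε
  choose A hA1 hA2 using h
  obtain ⟨N, hN⟩ := hX (S + 1) (by linarith)
  let U : Ultrafilter (Finset X) := Ultrafilter.of Filter.atTop
  have hU : (U : Filter (Finset X)) ≤ Filter.atTop := Ultrafilter.of_le _
  have hmem : ∀ x : X, {F : Finset X | x ∈ F} ∈ U := by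
    intro x
    apply hU
    filter_upwards [Filter.mem_atTop ({x} : Finset X)] with F hF
    exact hF (Finset.mem_singleton_self x)
  have hlim : ∀ x : X, ∃ B : Finset (X × ℕ), {F | A F x = B} ∈ U := by
    intro x
    set T : Finset (X × ℕ) := (hN x).1.toFinset ×ˢ Finset.range (M + 1) with hT
    have h1 : ((T.powerset : Finset (Finset (X × ℕ))) : Set (Finset (X × ℕ))) ∈
        U.map (fun F => A F x) := by
      rw [Ultrafilter.mem_map]
      refine Filter.mem_of_superset (hmem x) fun F hF => ?_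
      simp only [Set.mem_preimage, Finset.mem_coe, Finset.mem_powerset]
      intro w hw
      obtain ⟨h2, h3⟩ := (hA1 F x hF).2 w hw
      simp only [hT, Finset.mem_product, Set.Finite.mem_toFinset, Metric.mem_ball,
        Finset.mem_range]
      exact ⟨by linarith, by omega⟩
    obtain ⟨B, _, hB⟩ := Ultrafilter.eq_pure_of_finite_mem (Finset.finite_toSet _) h1
    refine ⟨B, ?_⟩
    have : ({B} : Set (Finset (X × ℕ))) ∈ U.map (fun F => A F x) := by
      rw [hB]; simp
    exact this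
  choose B hB using hlim
  have hex : ∀ x y : X, ∃ F : Finset X, x ∈ F ∧ y ∈ F ∧ A F x = B x ∧ A F y = B y := by
    intro x y
    have := Filter.inter_mem (Filter.inter_mem (hmem x) (hmem y))
      (Filter.inter_mem (hB x) (hB y))
    obtain ⟨F, ⟨h1, h2⟩, h3, h4⟩ := Ultrafilter.nonempty_of_mem this
    exact ⟨F, h1, h2, h3, h4⟩
  refine ⟨S, fun x => (B x : Set (X × ℕ)), fun x => Finset.finite_toSet _, ?_, ?_, ?_⟩
  · intro x
    obtain ⟨F, h1, _, h3, _⟩ := hex x x
    have := (hA1 F x h1).1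
    rw [h3] at this
    exact this
  · intro x w hw
    obtain ⟨F, h1, _, h3, _⟩ := hex x x
    have hw' : w ∈ A F x := by rw [h3]; exact hw
    exact ((hA1 F x h1).2 w hw').1
  · intro x y hxy
    obtain ⟨F, h1, h2, h3, h4⟩ := hex x y
    have := hA2 F x h1 y h2 hxy
    rw [h3, h4] at this
    rw [← Finset.coe_symmDiff, ← Finset.coe_inter, Set.ncard_coe_finset, Set.ncard_coe_finset]
    exact this

end Pool.Agent.H125Z.ONL
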